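import Pool.Agent.Rect.Perc.Arch

/-!
# The escape bound in the language of tiles (A7c)

A tile is a pair `(y, x)` (row, column); `S` is the set of the tiles whose drawn diagonal has the colour `r`
(`r = 0` : primal, `r = 1` : dual), the corner `(x, y)` has the colour `(x + y) % 2`.
-/

set_option autoImplicit false

namespace Ann32
open Finset H47Perc H47Perc.RC
open Pool.Agent.Helper69.RSW (P P_mono P_congr P_map P_restrict Dep Up P_nonneg)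

/-- the drawn diagonals of the colour `r` of the tiles of `S` -/
def DE (r : ℕ) (S : Finset (ℕ × ℕ)) (a b : ℕ × ℕ) : Prop :=
  ∃ x y, (y, x) ∈ S ∧ (((x + y) % 2 = r ∧ a = (x, y) ∧ b = (x + 1, y + 1)) ∨
    ((x + y) % 2 ≠ r ∧ a = (x + 1, y) ∧ b = (x, y + 1)))

/-- connection by drawn diagonals of the colour `r` -/
def Con (r : ℕ) (S : Finset (ℕ × ℕ)) : ℕ × ℕ → ℕ × ℕ → Prop :=
  Relation.ReflTransGen (fun a b => DE r S a b ∨ DE r S b a)

/-- a path of colour `r` from the interval `[x0, x1]` of the row `y0` to the row `y1` -/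
def Arm (r x0 x1 y0 y1 : ℕ) (S : Finset (ℕ × ℕ)) : Prop :=
  ∃ x x', x0 ≤ x ∧ x ≤ x1 ∧ (x + y0) % 2 = r ∧ Con r S (x, y0) (x', y1)

/-- a path of colour `r` from the interval `[x0, x1]` of the row `y0` to the row `y1` or to a column at distance
at least `y1 - y0` of the interval -/
def ArmW (r x0 x1 y0 y1 : ℕ) (S : Finset (ℕ × ℕ)) : Prop :=
  ∃ x b, x0 ≤ x ∧ x ≤ x1 ∧ (x + y0) % 2 = r ∧ Con r S (x, y0) b ∧
    (b.2 = y1 ∨ b.1 + (y1 - y0) ≤ x0 ∨ x1 + (y1 - y0) ≤ b.1)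

theorem DE.mono {r : ℕ} {S T : Finset (ℕ × ℕ)} (h : S ⊆ T) {a b : ℕ × ℕ} (hd : DE r S a b) : DE r T a b := by
  obtain ⟨x, y, h1, h2⟩ := hd
  exact ⟨x, y, h h1, h2⟩

theorem Con.mono {r : ℕ} {S T : Finset (ℕ × ℕ)} (h : S ⊆ T) {a b : ℕ × ℕ} (hd : Con r S a b) : Con r T a b := by
  unfold Con at hd ⊢
  induction hd with
  | refl => exact Relation.ReflTransGen.refl
  | tail _ h2 ih => exact ih.tail (h2.imp (DE.mono h) (DE.mono h))

theorem up_Arm (r x0 x1 y0 y1 : ℕ) : Up (Arm r x0 x1 y0 y1) := by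
  rintro S T h ⟨x, x', h1, h2, h3, h4⟩
  exact ⟨x, x', h1, h2, h3, h4.mono h⟩

theorem up_ArmW (r x0 x1 y0 y1 : ℕ) : Up (ArmW r x0 x1 y0 y1) := by
  rintro S T h ⟨x, b, h1, h2, h3, h4, h5⟩
  exact ⟨x, b, h1, h2, h3, h4.mono h, h5⟩

theorem Arm.armW {r x0 x1 y0 y1 : ℕ} {S : Finset (ℕ × ℕ)} (h : Arm r x0 x1 y0 y1 S) : ArmW r x0 x1 y0 y1 S := by
  obtain ⟨x, x', h1, h2, h3, h4⟩ := h
  exact ⟨x, (x', y1), h1, h2, h3, h4, Or.inl rfl⟩

/-- the corner `(x, y)` of the colour `r` as a vertex of `ℤ × ℤ` -/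
def vt (r x y : ℕ) : ℤ × ℤ := (((x : ℤ) + y + r) / 2, ((x : ℤ) - y + r) / 2)

theorem vt_uw {r x y : ℕ} (_hr : r < 2) (h : (x + y) % 2 = r) :
    (vt r x y).1 + (vt r x y).2 = x + r ∧ (vt r x y).1 - (vt r x y).2 = y := by
  unfold vt
  simp only
  omega

/-- the edge of the colour `r` of a tile -/
def teR (r : ℕ) (p : ℕ × ℕ) : Sym2 (ℤ × ℤ) :=
  if (p.2 + p.1) % 2 = r then s(vt r p.2 p.1, vt r (p.2 + 1) (p.1 + 1)) else s(vt r (p.2 + 1) p.1, vt r p.2 (p.1 + 1))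

/-- smallest coordinate `u` of an edge -/
def mu (e : Sym2 (ℤ × ℤ)) : ℤ :=
  Sym2.lift ⟨fun a b => min (a.1 + a.2) (b.1 + b.2), fun _ _ => min_comm _ _⟩ e

/-- smallest coordinate `w` of an edge -/
def mw (e : Sym2 (ℤ × ℤ)) : ℤ :=
  Sym2.lift ⟨fun a b => min (a.1 - a.2) (b.1 - b.2), fun _ _ => min_comm _ _⟩ e

theorem teR_coords {r : ℕ} (hr : r < 2) (p : ℕ × ℕ) : mu (teR r p) = p.2 + r ∧ mw (teR r p) = p.1 := by
  unfold teR
  by_cases h : (p.2 + p.1) % 2 = r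
  · rw [if_pos h]
    obtain ⟨h1, h2⟩ := vt_uw hr h
    obtain ⟨h3, h4⟩ := vt_uw (x := p.2 + 1) (y := p.1 + 1) hr (by omega)
    unfold mu mw
    simp only [Sym2.lift_mk]
    rw [h1, h2, h3, h4]
    push_cast
    omega
  · rw [if_neg h]
    obtain ⟨h1, h2⟩ := vt_uw (x := p.2 + 1) (y := p.1) hr (by omega)
    obtain ⟨h3, h4⟩ := vt_uw (x := p.2) (y := p.1 + 1) hr (by omega)
    unfold mu mw
    simp only [Sym2.lift_mk]
    rw [h1, h2, h3, h4]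
    push_cast
    omega

/-- the edges of the colour `r` -/
def teE (r : ℕ) (hr : r < 2) : (ℕ × ℕ) ↪ Sym2 (ℤ × ℤ) where
  toFun := teR r
  inj' := by
    intro p q h
    obtain ⟨h1, h2⟩ := teR_coords hr p
    obtain ⟨h3, h4⟩ := teR_coords hr q
    rw [h] at h1 h2
    exact Prod.ext (by omega) (by omega)

theorem vt_adj {r x y : ℕ} (_hr : r < 2) : ((x + y) % 2 = r → lattice.Adj (vt r x y) (vt r (x + 1) (y + 1))) ∧
    ((x + y) % 2 ≠ r → lattice.Adj (vt r (x + 1) y) (vt r x (y + 1))) := by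
  constructor
  · intro h
    right
    unfold vt
    simp only
    push_cast
    constructor
    · omega
    · have : ((x : ℤ) + y + r) / 2 - ((x : ℤ) + 1 + (y + 1) + r) / 2 = -1 := by omega
      rw [this]
      norm_num
  · intro h
    left
    unfold vt
    simp only
    push_cast
    constructor
    · omega
    · have : ((x : ℤ) + 1 - y + r) / 2 - ((x : ℤ) - (y + 1) + r) / 2 = 1 := by omega
      rw [this]
      norm_num

theorem teR_mem {r : ℕ} (hr : r < 2) {p : ℕ × ℕ} {a b c d : ℤ} (h1 : a ≤ p.2 + r) (h2 : (p.2 : ℤ) + r + 1 ≤ b)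
    (h3 : c ≤ p.1) (h4 : (p.1 : ℤ) + 1 ≤ d) : teR r p ∈ edgesIn (drect a b c d) := by
  unfold teR
  obtain ⟨a1, a2⟩ := vt_adj (x := p.2) (y := p.1) hr
  by_cases h : (p.2 + p.1) % 2 = r
  · rw [if_pos h, mem_edgesIn, mem_drect, mem_drect]
    obtain ⟨h5, h6⟩ := vt_uw hr h
    obtain ⟨h7, h8⟩ := vt_uw (x := p.2 + 1) (y := p.1 + 1) hr (by omega)
    rw [h5, h6, h7, h8]
    push_cast
    exact ⟨by omega, by omega, a1 h⟩
  · rw [if_neg h, mem_edgesIn, mem_drect, mem_drect]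
    obtain ⟨h5, h6⟩ := vt_uw (x := p.2 + 1) (y := p.1) hr (by omega)
    obtain ⟨h7, h8⟩ := vt_uw (x := p.2) (y := p.1 + 1) hr (by omega)
    rw [h5, h6, h7, h8]
    push_cast
    exact ⟨by omega, by omega, a2 h⟩

/-- connections by diagonals are connections by edges -/
theorem Con.joined {r : ℕ} (hr : r < 2) {S : Finset (ℕ × ℕ)} {a b : ℕ × ℕ} (ha : (a.1 + a.2) % 2 = r) (h : Con r S a b) :
    (b.1 + b.2) % 2 = r ∧ Joined (S.map (teE r hr)) (vt r a.1 a.2) (vt r b.1 b.2) := by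
  unfold Con at h
  induction h with
  | refl => exact ⟨ha, joined_refl _ _⟩
  | @tail b c _ h2 ih =>
    obtain ⟨i1, i2⟩ := ih
    have key : ∀ {a b : ℕ × ℕ}, DE r S a b → ((a.1 + a.2) % 2 = r ∧ (b.1 + b.2) % 2 = r) ∧
        Joined (S.map (teE r hr)) (vt r a.1 a.2) (vt r b.1 b.2) := by
      rintro a b ⟨x, y, h1, ⟨h3, rfl, rfl⟩ | ⟨h3, rfl, rfl⟩⟩
      · refine ⟨⟨h3, by simp only; omega⟩, joined_edge ?_⟩
        rw [mem_map]
        refine ⟨(y, x), h1, ?_⟩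
        show teR r (y, x) = _
        unfold teR
        rw [if_pos h3]
      · refine ⟨⟨by simp only; omega, by simp only; omega⟩, joined_edge ?_⟩
        rw [mem_map]
        refine ⟨(y, x), h1, ?_⟩
        show teR r (y, x) = _
        unfold teR
        rw [if_neg h3]
    rcases h2 with h2 | h2
    · obtain ⟨⟨_, k2⟩, k3⟩ := key h2
      exact ⟨k2, joined_trans i2 k3⟩
    · obtain ⟨⟨k1, _⟩, k3⟩ := key h2
      exact ⟨k1, joined_trans i2 (joined_symm k3)⟩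

theorem P_mono_set {E : Type*} [DecidableEq E] {G F : Finset E} (h : G ⊆ F) {A : Finset E → Prop} (hA : Up A) :
    P G A ≤ P F A := by
  have hdep : Dep G (fun S => A (S ∩ G)) := by
    intro S
    simp only [inter_assoc, inter_self]
  have h1 : P G A = P G (fun S => A (S ∩ G)) := P_congr fun S hS => by rw [inter_eq_left.2 hS]
  rw [h1, ← P_restrict h hdep]
  exact P_mono fun S _ hx => hA _ _ inter_subset_left hx

/-- **(A7c), window form** -/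
theorem armW_le : ∃ θ : ℝ, 0 ≤ θ ∧ θ < 1 ∧ ∀ (r y0 y1 x0 x1 : ℕ) (F : Finset (ℕ × ℕ)), r < 2 → y0 < y1 →
    x1 + y0 ≤ x0 + y1 → (∀ p ∈ F, y0 ≤ p.1 ∧ p.1 < y1) → P F (ArmW r x0 x1 y0 y1) ≤ θ := by
  obtain ⟨θ, h0, h1, hE⟩ := esc_le
  refine ⟨θ, h0, h1, fun r y0 y1 x0 x1 F hr hy hx hF => ?_⟩
  -- the region
  obtain ⟨b, hb⟩ : ∃ b : ℤ, ∀ p ∈ F, (p.2 : ℤ) + r + 1 ≤ b := by
    refine ⟨((F.sup fun p => p.2 : ℕ) : ℤ) + r + 1, fun p hp => ?_⟩
    have : p.2 ≤ F.sup fun p => p.2 := Finset.le_sup (f := fun p : ℕ × ℕ => p.2) hp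
    omega
  have hsub : F.map (teE r hr) ⊆ edgesIn (drect r b y0 y1) := by
    intro e he
    obtain ⟨p, hp, rfl⟩ := mem_map.1 he
    obtain ⟨h3, h4⟩ := hF p hp
    exact teR_mem hr (by omega) (hb p hp) (by omega) (by omega)
  have h2 : P F (ArmW r x0 x1 y0 y1) ≤
      P F (fun S => Esc (x0 + r) (x1 + r) y0 y1 (y1 - y0) (S.map (teE r hr))) := by
    apply P_mono
    rintro S _ ⟨x, c, a1, a2, a3, a4, a5⟩
    obtain ⟨i1, i2⟩ := Con.joined hr (a := (x, y0)) a3 a4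
    obtain ⟨b1, b2⟩ := vt_uw hr a3
    obtain ⟨b3, b4⟩ := vt_uw hr i1
    refine ⟨vt r x y0, vt r c.1 c.2, b2, by omega, by omega, ?_, i2⟩
    rw [b3, b4]
    omega
  have h3 := P_map F (teE r hr) (Esc (x0 + r) (x1 + r) y0 y1 (y1 - y0))
  have h4 := P_mono_set hsub (up_Esc (x0 + r) (x1 + r) y0 y1 (y1 - y0))
  have h5 := hE r b y0 y1 (x0 + r) (x1 + r) (by omega) (by omega)
  rw [Pool.Agent.Helper69.RSW.perc_half_eq] at h5
  linarith

/-- **(A7c)** -/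
theorem arm_le : ∃ θ : ℝ, 0 ≤ θ ∧ θ < 1 ∧ ∀ (r y0 y1 x0 x1 : ℕ) (F : Finset (ℕ × ℕ)), r < 2 → y0 < y1 →
    x1 + y0 ≤ x0 + y1 → (∀ p ∈ F, y0 ≤ p.1 ∧ p.1 < y1) → P F (Arm r x0 x1 y0 y1) ≤ θ := by
  obtain ⟨θ, h0, h1, hE⟩ := armW_le
  exact ⟨θ, h0, h1, fun r y0 y1 x0 x1 F hr hy hx hF => (P_mono fun S _ h => h.armW).trans (hE r y0 y1 x0 x1 F hr hy hx hF)⟩

end Ann32
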