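import Mathlib

/-!
# ANNULUS: critical bond percolation on the diagonal square lattice, cylinder with `N` columns and `2M` rows (helper32)

Corners `(x, y)`, `0 ≤ x ≤ N`, `y ∈ Z/2M` (represented by `y < 2M`), colour `(x + y) % 2`.  The tile `(x, y)`, `x < N`,
carries the diagonal `(x,y)-(x+1,y+1)` if `ω y x = true` and the antidiagonal `(x+1,y)-(x,y+1)` if `ω y x = false`.
So the diagonals of one colour are the open edges and those of the other colour the dual edges of a bond percolation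
configuration on (a piece of) the square lattice.
The left wall joins the corners `(0, y)`, `y` even, the right wall joins the corners `(N, y)`, `y` even.
`Wn` : the least number of colour changes of a path from the left wall to the right wall, i.e. the number of non
contractible loops.
-/

namespace Ann32

/-- configurations: `ω y x`, row `y < 2M`, column `x < N` -/
abbrev Cfg (N M : ℕ) : Type := Fin (2 * M) → Fin N → Bool

/-- extension to all natural numbers -/
def ext {N M : ℕ} (ω : Cfg N M) (y x : ℕ) : Bool :=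
  if h : y < 2 * M ∧ x < N then ω ⟨y, h.1⟩ ⟨x, h.2⟩ else false

/-- the next row -/
def up (M y : ℕ) : ℕ := (y + 1) % (2 * M)

/-- two corners joined by a drawn diagonal (cost `0`) -/
def E0 (N M : ℕ) (t : ℕ → ℕ → Bool) (a b : ℕ × ℕ) : Prop :=
  ∃ x y, x < N ∧ y < 2 * M ∧
    ((t y x = true ∧ a = (x, y) ∧ b = (x + 1, up M y)) ∨ (t y x = false ∧ a = (x + 1, y) ∧ b = (x, up M y)))

/-- two corners joined by a side of a tile (cost `1`) -/
def E1 (N M : ℕ) (a b : ℕ × ℕ) : Prop :=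
  ∃ x y, y < 2 * M ∧ ((x < N ∧ a = (x, y) ∧ b = (x + 1, y)) ∨ (x ≤ N ∧ a = (x, y) ∧ b = (x, up M y)))

/-- the corner can be reached from the left wall with at most `k` colour changes -/
inductive Reach (N M : ℕ) (t : ℕ → ℕ → Bool) : ℕ → ℕ × ℕ → Prop
  | start (y : ℕ) (hy : y < 2 * M) (h2 : y % 2 = 0) : Reach N M t 0 (0, y)
  | weak {k : ℕ} {a : ℕ × ℕ} (h : Reach N M t k a) : Reach N M t (k + 1) a
  | step0 {k : ℕ} {a b : ℕ × ℕ} (h : Reach N M t k a) (he : E0 N M t a b ∨ E0 N M t b a) : Reach N M t k b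
  | step1 {k : ℕ} {a b : ℕ × ℕ} (h : Reach N M t k a) (he : E1 N M a b ∨ E1 N M b a) : Reach N M t (k + 1) b

/-- the right wall can be reached from the left wall with at most `k` colour changes -/
def Across (N M : ℕ) (t : ℕ → ℕ → Bool) (k : ℕ) : Prop := ∃ y < 2 * M, y % 2 = 0 ∧ Reach N M t k (N, y)

open Classical in
/-- the number of non contractible loops -/
noncomputable def Wn (N M : ℕ) (t : ℕ → ℕ → Bool) : ℕ := sInf {k | Across N M t k}

/-- an open path joins the two boundary circles (open = the colour of the corner `(0, 0)`) -/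
def Cross (N M : ℕ) (t : ℕ → ℕ → Bool) : Prop :=
  ∃ y y', y < 2 * M ∧ y' < 2 * M ∧ y % 2 = 0 ∧ y' % 2 = 0 ∧
    Relation.ReflTransGen (fun a b => E0 N M t a b ∨ E0 N M t b a) (0, y) (N, y')

/-- the expectation over the uniform configuration -/
noncomputable def Ex (N M : ℕ) (F : Cfg N M → ℝ) : ℝ := (∑ ω : Cfg N M, F ω) / 2 ^ (2 * M * N)

/-! ### elementary facts -/

theorem Reach.mono {N M : ℕ} {t : ℕ → ℕ → Bool} {k l : ℕ} {a : ℕ × ℕ} (h : Reach N M t k a) (hkl : k ≤ l) :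
    Reach N M t l a := by
  induction l, hkl using Nat.le_induction with
  | base => exact h
  | succ l _ ih => exact ih.weak

theorem up_lt {M y : ℕ} (h : y < 2 * M) : up M y < 2 * M := Nat.mod_lt _ (by omega)

theorem up_parity {M y : ℕ} (h : y < 2 * M) : up M y % 2 = (y + 1) % 2 := by
  unfold up
  exact Nat.mod_mul_right_mod _ _ _

/-- a corner of the cylinder which is reached stays in the cylinder -/
theorem Reach.bound {N M : ℕ} {t : ℕ → ℕ → Bool} {k : ℕ} {a : ℕ × ℕ} (h : Reach N M t k a) :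
    a.1 ≤ N ∧ a.2 < 2 * M := by
  induction h with
  | start y hy h2 => exact ⟨Nat.zero_le _, hy⟩
  | weak h ih => exact ih
  | step0 h he ih =>
    rcases he with ⟨x, y, hx, hy, ⟨_, ha, hb⟩ | ⟨_, ha, hb⟩⟩ | ⟨x, y, hx, hy, ⟨_, ha, hb⟩ | ⟨_, ha, hb⟩⟩
    · rw [hb]; exact ⟨hx, up_lt hy⟩
    · rw [hb]; exact ⟨hx.le, up_lt hy⟩
    · rw [ha]; exact ⟨hx.le, hy⟩
    · rw [ha]; exact ⟨hx, hy⟩
  | step1 h he ih =>
    rcases he with ⟨x, y, hy, ⟨hx, ha, hb⟩ | ⟨hx, ha, hb⟩⟩ | ⟨x, y, hy, ⟨hx, ha, hb⟩ | ⟨hx, ha, hb⟩⟩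
    · rw [hb]; exact ⟨hx, hy⟩
    · rw [hb]; exact ⟨hx, up_lt hy⟩
    · rw [ha]; exact ⟨hx.le, hy⟩
    · rw [ha]; exact ⟨hx, hy⟩

/-- every corner of the row `0` is reached -/
theorem reach_row0 {N M : ℕ} (hM : 0 < M) (t : ℕ → ℕ → Bool) {x : ℕ} (hx : x ≤ N) : Reach N M t x (x, 0) := by
  induction x with
  | zero => exact Reach.start 0 (by omega) rfl
  | succ x ih => exact (ih (by omega)).step1 (Or.inl ⟨x, 0, by omega, Or.inl ⟨by omega, rfl, rfl⟩⟩)

theorem across_N {N M : ℕ} (hM : 0 < M) (t : ℕ → ℕ → Bool) : Across N M t N :=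
  ⟨0, by omega, rfl, reach_row0 hM t le_rfl⟩

theorem Across.mono {N M : ℕ} {t : ℕ → ℕ → Bool} {k l : ℕ} (h : Across N M t k) (hkl : k ≤ l) : Across N M t l := by
  obtain ⟨y, h1, h2, h3⟩ := h
  exact ⟨y, h1, h2, h3.mono hkl⟩

theorem Wn_le_iff {N M : ℕ} (hM : 0 < M) (t : ℕ → ℕ → Bool) (k : ℕ) : Wn N M t ≤ k ↔ Across N M t k := by
  have h : (Across N M t (Wn N M t)) := Nat.sInf_mem (s := {k | Across N M t k}) ⟨N, across_N hM t⟩
  exact ⟨fun hk => h.mono hk, fun hk => Nat.sInf_le hk⟩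

end Ann32
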