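import Pool.Agent.Helper32.Ann.Row
import Pool.Agent.Helper32.Ann.Defs

/-!
# ANNULUS (A6): the number of non contractible loops of a configuration and of its word (helper32)
-/

namespace Ann32
open Lt

/-- the word of the configuration `t`, `m` double rows -/
def Wd (N : ℕ) (t : ℕ → ℕ → Bool) : ℕ → List Lt
  | 0 => []
  | m + 1 => Wd N t m ++ drW N (t (2 * m)) (t (2 * m + 1))

theorem low_ok {N : ℕ} {t : ℕ → Bool} : ∀ {n : ℕ}, n ≤ N → ok (N + 2) (lowW t n) ∧ sz (N + 2) (lowW t n) = N + 2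
  | 0, _ => ⟨trivial, rfl⟩
  | n + 1, h => by
    obtain ⟨h1, h2⟩ := low_ok (N := N) (t := t) (n := n) (by omega)
    show ok (N + 2) (lowW t n ++ (if t n then [] else [cap (n + 1), cup (n + 1)])) ∧
      sz (N + 2) (lowW t n ++ (if t n then [] else [cap (n + 1), cup (n + 1)])) = N + 2
    rw [ok_append, sz_append, h2]
    by_cases ht : t n = true
    · rw [if_pos ht]
      exact ⟨⟨h1, trivial⟩, rfl⟩
    · rw [if_neg ht]
      refine ⟨⟨h1, ⟨?_, ?_, trivial⟩⟩, rfl⟩
      · show n + 1 + 2 ≤ N + 2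
        omega
      · show n + 1 ≤ N + 2 - 2
        omega

theorem upp_ok {N : ℕ} {t : ℕ → Bool} : ∀ {n : ℕ}, n ≤ N → ok (N + 2) (uppW t n) ∧ sz (N + 2) (uppW t n) = N + 2
  | 0, _ => ⟨trivial, rfl⟩
  | n + 1, h => by
    obtain ⟨h1, h2⟩ := upp_ok (N := N) (t := t) (n := n) (by omega)
    show ok (N + 2) ((if t n then [cap (n + 1), cup (n + 1)] else []) ++ uppW t n) ∧
      sz (N + 2) ((if t n then [cap (n + 1), cup (n + 1)] else []) ++ uppW t n) = N + 2
    rw [ok_append, sz_append]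
    by_cases ht : t n = true
    · rw [if_pos ht]
      refine ⟨⟨⟨?_, ?_, trivial⟩, h1⟩, h2⟩
      · show n + 1 + 2 ≤ N + 2
        omega
      · show n + 1 ≤ N + 2 - 2
        omega
    · rw [if_neg ht]
      exact ⟨⟨trivial, h1⟩, h2⟩

theorem dr_cl (N : ℕ) (t t' : ℕ → Bool) : Cl N (drW N t t') := by
  obtain ⟨h1, h2⟩ := low_ok (t := t) (le_refl N)
  obtain ⟨h3, h4⟩ := upp_ok (t := t') (le_refl N)
  refine ⟨⟨Nat.zero_le _, ?_⟩, ?_⟩
  · show ok (N + 2) (lowW t N ++ (uppW t' N ++ [cap 0]))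
    rw [ok_append, h2, ok_append, h4]
    refine ⟨h1, h3, ?_, trivial⟩
    show 0 + 2 ≤ N + 2
    omega
  · show sz (N + 2) (lowW t N ++ (uppW t' N ++ [cap 0])) = N
    rw [sz_append, h2, sz_append, h4]
    show N + 2 - 2 = N
    omega

theorem Wd_cl (N : ℕ) (t : ℕ → ℕ → Bool) : ∀ m, Cl N (Wd N t m)
  | 0 => ⟨trivial, rfl⟩
  | m + 1 => by
    obtain ⟨h1, h2⟩ := Wd_cl N t m
    obtain ⟨h3, h4⟩ := dr_cl N (t (2 * m)) (t (2 * m + 1))
    refine ⟨(ok_append _ _ _).2 ⟨h1, by rw [h2]; exact h3⟩, ?_⟩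
    show sz N (Wd N t m ++ drW N (t (2 * m)) (t (2 * m + 1))) = N
    rw [sz_append, h2, h4]

theorem Rel_Wd {N : ℕ} {t : ℕ → ℕ → Bool} : ∀ {m : ℕ} {f g : ℕ → ℤ}, Lip f → Lip g →
    (Rel (Wd N t m) f g ↔ ∃ F : ℕ → ℕ → ℤ, F 0 = f ∧ F m = g ∧ (∀ j, j ≤ m → Lip (F j)) ∧
      ∀ j, j < m → Rel (drW N (t (2 * j)) (t (2 * j + 1))) (F j) (F (j + 1)))
  | 0, f, g, hf, _ => by
    constructor
    · intro h
      have h' : f = g := h
      exact ⟨fun _ => f, rfl, h', fun _ _ => hf, fun j hj => absurd hj (Nat.not_lt_zero _)⟩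
    · rintro ⟨F, h1, h2, _, _⟩
      show f = g
      rw [← h1, ← h2]
  | m + 1, f, g, hf, hg => by
    show Rel (Wd N t m ++ drW N (t (2 * m)) (t (2 * m + 1))) f g ↔ _
    rw [Rel_append hf]
    constructor
    · rintro ⟨h, hh, h1, h2⟩
      obtain ⟨F, a1, a2, a3, a4⟩ := (Rel_Wd hf hh).1 h1
      refine ⟨fun j => if j ≤ m then F j else g, ?_, ?_, ?_, ?_⟩
      · show (if 0 ≤ m then F 0 else g) = f
        rw [if_pos (Nat.zero_le _), a1]
      · show (if m + 1 ≤ m then F (m + 1) else g) = g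
        rw [if_neg (by omega)]
      · intro j hj
        show Lip (if j ≤ m then F j else g)
        by_cases h' : j ≤ m
        · rw [if_pos h']; exact a3 j h'
        · rw [if_neg h']; exact hg
      · intro j hj
        show Rel _ (if j ≤ m then F j else g) (if j + 1 ≤ m then F (j + 1) else g)
        rw [if_pos (by omega : j ≤ m)]
        by_cases h' : j + 1 ≤ m
        · rw [if_pos h']; exact a4 j (by omega)
        · rw [if_neg h']
          obtain rfl : j = m := by omega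
          rw [a2]
          exact h2
    · rintro ⟨F, a1, a2, a3, a4⟩
      refine ⟨F m, a3 m (by omega), (Rel_Wd hf (a3 m (by omega))).2
        ⟨F, a1, rfl, fun j hj => a3 j (by omega), fun j hj => a4 j (by omega)⟩, ?_⟩
      rw [← a2]
      exact a4 m (by omega)

/-- lattice potentials -/
def LPot (N M : ℕ) (t : ℕ → ℕ → Bool) (r : ℤ) : Prop :=
  ∃ D : ℕ × ℕ → ℤ, (∀ y, y < 2 * M → y % 2 = 0 → D (0, y) = 0 ∧ D (N, y) = r) ∧
    (∀ a b, E0 N M t a b → D a = D b) ∧ ∀ a b, E1 N M a b → |D b - D a| ≤ 1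

/-- all corners are reached -/
theorem reach_all {N M : ℕ} (t : ℕ → ℕ → Bool) {x y : ℕ} (hx : x ≤ N) (hy : y < 2 * M) :
    ∃ k, Reach N M t k (x, y) := by
  have h0 : ∀ y, y < 2 * M → ∃ k, Reach N M t k (0, y) := by
    intro y hy
    rcases Nat.mod_two_eq_zero_or_one y with h | h
    · exact ⟨0, Reach.start y hy h⟩
    · have h1 : Reach N M t 0 (0, y - 1) := Reach.start (y - 1) (by omega) (by omega)
      refine ⟨1, h1.step1 (Or.inl ⟨0, y - 1, by omega, Or.inr ⟨Nat.zero_le _, rfl, ?_⟩⟩)⟩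
      have : up M (y - 1) = y := by
        unfold up
        rw [show y - 1 + 1 = y by omega]
        exact Nat.mod_eq_of_lt hy
      rw [this]
  induction x with
  | zero => exact h0 y hy
  | succ x ih =>
    obtain ⟨k, hk⟩ := ih (by omega)
    exact ⟨k + 1, hk.step1 (Or.inl ⟨x, y, hy, Or.inl ⟨by omega, rfl, rfl⟩⟩)⟩

theorem LPot_le {N M : ℕ} {t : ℕ → ℕ → Bool} {r : ℤ} {D : ℕ × ℕ → ℤ}
    (h0 : ∀ y, y < 2 * M → y % 2 = 0 → D (0, y) = 0 ∧ D (N, y) = r)
    (h1 : ∀ a b, E0 N M t a b → D a = D b) (h2 : ∀ a b, E1 N M a b → |D b - D a| ≤ 1) {k : ℕ} {a : ℕ × ℕ}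
    (h : Reach N M t k a) : |D a| ≤ k := by
  induction h with
  | start y hy h2 => rw [(h0 y hy h2).1]; simp
  | @weak k a h ih => push_cast; linarith
  | @step0 k a b h he ih =>
    have : D b = D a := by
      rcases he with he | he
      · exact (h1 _ _ he).symm
      · exact h1 _ _ he
    rw [this]; exact ih
  | @step1 k a b h he ih =>
    have h3 : |D b - D a| ≤ 1 := by
      rcases he with he | he
      · exact h2 _ _ he
      · rw [abs_sub_comm]; exact h2 _ _ he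
    have h4 : |D b| ≤ |D b - D a| + |D a| := by
      have := abs_add_le (D b - D a) (D a)
      rwa [sub_add_cancel] at this
    push_cast
    linarith

open Classical in
/-- distance from the left wall -/
noncomputable def dst (N M : ℕ) (t : ℕ → ℕ → Bool) (a : ℕ × ℕ) : ℕ := sInf {k | Reach N M t k a}

theorem dst_le {N M : ℕ} {t : ℕ → ℕ → Bool} {a : ℕ × ℕ} {k : ℕ} (h : Reach N M t k a) : dst N M t a ≤ k :=
  Nat.sInf_le h

theorem dst_reach {N M : ℕ} {t : ℕ → ℕ → Bool} {a : ℕ × ℕ} {k : ℕ} (h : Reach N M t k a) :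
    Reach N M t (dst N M t a) a := Nat.sInf_mem (s := {k | Reach N M t k a}) ⟨k, h⟩

theorem LPot_iff {N M : ℕ} (hM : 0 < M) (t : ℕ → ℕ → Bool) (r : ℤ) : LPot N M t r ↔ |r| ≤ Wn N M t := by
  constructor
  · rintro ⟨D, h0, h1, h2⟩
    obtain ⟨y, hy, hy2, hR⟩ := (Wn_le_iff hM t (Wn N M t)).1 le_rfl
    rw [← (h0 y hy hy2).2]
    exact LPot_le h0 h1 h2 hR
  · intro hr
    have hreach : ∀ {a : ℕ × ℕ}, a.1 ≤ N → a.2 < 2 * M → Reach N M t (dst N M t a) a := by
      rintro ⟨x, y⟩ hx hy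
      obtain ⟨k, hk⟩ := reach_all (N := N) (M := M) t hx hy
      exact dst_reach hk
    have b0 : ∀ a b, E0 N M t a b → (a.1 ≤ N ∧ a.2 < 2 * M) ∧ (b.1 ≤ N ∧ b.2 < 2 * M) := by
      rintro a b ⟨x, y, hx, hy, ⟨_, rfl, rfl⟩ | ⟨_, rfl, rfl⟩⟩
      · exact ⟨⟨hx.le, hy⟩, hx, up_lt hy⟩
      · exact ⟨⟨hx, hy⟩, hx.le, up_lt hy⟩
    have b1 : ∀ a b, E1 N M a b → (a.1 ≤ N ∧ a.2 < 2 * M) ∧ (b.1 ≤ N ∧ b.2 < 2 * M) := by
      rintro a b ⟨x, y, hy, ⟨hx, rfl, rfl⟩ | ⟨hx, rfl, rfl⟩⟩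
      · exact ⟨⟨hx.le, hy⟩, hx, hy⟩
      · exact ⟨⟨hx, hy⟩, hx, up_lt hy⟩
    have d0 : ∀ a b, E0 N M t a b → dst N M t a = dst N M t b := by
      intro a b h
      obtain ⟨⟨a1, a2⟩, b1, b2⟩ := b0 a b h
      exact le_antisymm (dst_le ((hreach b1 b2).step0 (Or.inr h))) (dst_le ((hreach a1 a2).step0 (Or.inl h)))
    have d1 : ∀ a b, E1 N M a b → dst N M t b ≤ dst N M t a + 1 ∧ dst N M t a ≤ dst N M t b + 1 := by
      intro a b h
      obtain ⟨⟨a1, a2⟩, b1, b2⟩ := b1 a b h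
      exact ⟨dst_le ((hreach a1 a2).step1 (Or.inl h)), dst_le ((hreach b1 b2).step1 (Or.inr h))⟩
    have e0 : ∀ y, y < 2 * M → y % 2 = 0 → dst N M t (0, y) = 0 := fun y hy h2 =>
      Nat.le_zero.1 (dst_le (Reach.start y hy h2))
    have eN : ∀ y, y < 2 * M → y % 2 = 0 → Wn N M t ≤ dst N M t (N, y) := fun y hy h2 =>
      (Wn_le_iff hM t _).2 ⟨y, hy, h2, hreach le_rfl hy⟩
    rcases le_total 0 r with h | h
    · rw [abs_of_nonneg h] at hr
      refine ⟨fun a => min (dst N M t a : ℤ) r, ?_, ?_, ?_⟩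
      · intro y hy h2
        constructor
        · show min ((dst N M t (0, y) : ℕ) : ℤ) r = 0
          rw [e0 y hy h2]
          exact min_eq_left (by simpa using h)
        · show min ((dst N M t (N, y) : ℕ) : ℤ) r = r
          have := eN y hy h2
          exact min_eq_right (by omega)
      · intro a b he
        show min ((dst N M t a : ℕ) : ℤ) r = min ((dst N M t b : ℕ) : ℤ) r
        rw [d0 a b he]
      · intro a b he
        obtain ⟨h3, h4⟩ := d1 a b he
        show |min ((dst N M t b : ℕ) : ℤ) r - min ((dst N M t a : ℕ) : ℤ) r| ≤ 1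
        rw [abs_le]
        omega
    · rw [abs_of_nonpos h] at hr
      refine ⟨fun a => max (-(dst N M t a : ℤ)) r, ?_, ?_, ?_⟩
      · intro y hy h2
        constructor
        · show max (-((dst N M t (0, y) : ℕ) : ℤ)) r = 0
          rw [e0 y hy h2]
          exact max_eq_left (by simpa using h)
        · show max (-((dst N M t (N, y) : ℕ) : ℤ)) r = r
          have := eN y hy h2
          exact max_eq_right (by omega)
      · intro a b he
        show max (-((dst N M t a : ℕ) : ℤ)) r = max (-((dst N M t b : ℕ) : ℤ)) r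
        rw [d0 a b he]
      · intro a b he
        obtain ⟨h3, h4⟩ := d1 a b he
        show |max (-((dst N M t b : ℕ) : ℤ)) r - max (-((dst N M t a : ℕ) : ℤ)) r| ≤ 1
        rw [abs_le]
        omega

theorem up_even {M j : ℕ} (hj : j < M) : up M (2 * j) = 2 * j + 1 := Nat.mod_eq_of_lt (by omega)

theorem up_odd {M j : ℕ} : up M (2 * j + 1) = 2 * (j + 1) % (2 * M) := by
  unfold up
  congr 1

/-- **the potentials of the word are the potentials of the lattice** -/
theorem Pot_iff_LPot {N M : ℕ} (hM : 0 < M) (t : ℕ → ℕ → Bool) (r : ℤ) :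
    Pot N (Wd N t M) r ↔ LPot N M t r := by
  constructor
  · rintro ⟨f, hf, hr, h0, hR⟩
    obtain ⟨F, F0, FM, FL, FR⟩ := (Rel_Wd hf hf).1 hR
    have hdr : ∀ j, j < M → F (j + 1) 0 = F j 0 ∧ (∀ x, N ≤ x → F (j + 1) x = F j x) ∧ ∃ d : ℕ → ℤ,
        (∀ x, x < N → |d (x + 1) - d x| ≤ 1) ∧ (∀ x, x ≤ N → |d x - F j x| ≤ 1 ∧ |F (j + 1) x - d x| ≤ 1) ∧
        (∀ x, x < N → if t (2 * j) x then d (x + 1) = F j x else d x = F j (x + 1)) ∧
        (∀ x, x < N → if t (2 * j + 1) x then F (j + 1) (x + 1) = d x else F (j + 1) x = d (x + 1)) :=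
      fun j hj => (Rel_dr (FL j hj.le) (FL (j + 1) hj)).1 (FR j hj)
    choose! g0 gN d d1 d2 d3 d4 using hdr
    have w0 : ∀ j, j ≤ M → F j 0 = 0 := by
      intro j
      induction j with
      | zero => intro _; rw [F0, h0]
      | succ j ih => intro hj; rw [g0 j hj, ih (by omega)]
    have wN : ∀ j, j ≤ M → ∀ x, N ≤ x → F j x = r := by
      intro j
      induction j with
      | zero => intro _ x hx; rw [F0, hr x hx]
      | succ j ih => intro hj x hx; rw [gN j hj x hx, ih (by omega) x hx]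
    set D : ℕ × ℕ → ℤ := fun a => if a.2 % 2 = 0 then F (a.2 / 2) a.1 else d (a.2 / 2) a.1 with hD
    have De : ∀ x j, D (x, 2 * j) = F j x := by
      intro x j
      show (if (2 * j) % 2 = 0 then F (2 * j / 2) x else d (2 * j / 2) x) = F j x
      rw [if_pos (by omega), show 2 * j / 2 = j by omega]
    have Do : ∀ x j, D (x, 2 * j + 1) = d j x := by
      intro x j
      show (if (2 * j + 1) % 2 = 0 then F ((2 * j + 1) / 2) x else d ((2 * j + 1) / 2) x) = d j x
      rw [if_neg (by omega), show (2 * j + 1) / 2 = j by omega]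
    have Du : ∀ x j, j < M → D (x, up M (2 * j + 1)) = F (j + 1) x := by
      intro x j hj
      rw [up_odd]
      rcases Nat.eq_or_lt_of_le (Nat.succ_le_of_lt hj) with h | h
      · have h' : j + 1 = M := h
        rw [h', Nat.mod_self, show (0 : ℕ) = 2 * 0 by rfl, De, F0, FM]
      · have h' : j + 1 < M := h
        rw [Nat.mod_eq_of_lt (by omega), De]
    refine ⟨D, ?_, ?_, ?_⟩
    · intro y hy h2
      obtain ⟨j, rfl⟩ : ∃ j, y = 2 * j := ⟨y / 2, by omega⟩
      rw [De, De]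
      exact ⟨w0 j (by omega), wN j (by omega) N le_rfl⟩
    · rintro a b ⟨x, y, hx, hy, hc⟩
      rcases Nat.even_or_odd' y with ⟨j, rfl | rfl⟩
      · have hj : j < M := by omega
        have := d3 j hj x hx
        rcases hc with ⟨ht, rfl, rfl⟩ | ⟨ht, rfl, rfl⟩
        · rw [if_pos ht] at this
          rw [up_even hj, De, Do, this]
        · rw [if_neg (by rw [ht]; simp)] at this
          rw [up_even hj, De, Do, this]
      · have hj : j < M := by omega
        have := d4 j hj x hx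
        rcases hc with ⟨ht, rfl, rfl⟩ | ⟨ht, rfl, rfl⟩
        · rw [if_pos ht] at this
          rw [Du _ _ hj, Do, this]
        · rw [if_neg (by rw [ht]; simp)] at this
          rw [Du _ _ hj, Do, this]
    · rintro a b ⟨x, y, hy, hc⟩
      rcases Nat.even_or_odd' y with ⟨j, rfl | rfl⟩
      · have hj : j < M := by omega
        rcases hc with ⟨hx, rfl, rfl⟩ | ⟨hx, rfl, rfl⟩
        · rw [De, De]
          exact FL j hj.le x
        · rw [up_even hj, De, Do]
          exact (d2 j hj x hx).1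
      · have hj : j < M := by omega
        rcases hc with ⟨hx, rfl, rfl⟩ | ⟨hx, rfl, rfl⟩
        · rw [Do, Do]
          exact d1 j hj x hx
        · rw [Du _ _ hj, Do]
          exact (d2 j hj x hx).2
  · rintro ⟨D, h0, h1, h2⟩
    set F : ℕ → ℕ → ℤ := fun j x => if x ≤ N then D (x, 2 * j % (2 * M)) else r with hF
    have Fi : ∀ j x, x ≤ N → F j x = D (x, 2 * j % (2 * M)) := fun j x hx => if_pos hx
    have Fo : ∀ j x, N ≤ x → F j x = r := by
      intro j x hx
      rcases Nat.eq_or_lt_of_le hx with rfl | hx'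
      · rw [Fi j N le_rfl]
        exact (h0 _ (Nat.mod_lt _ (by omega)) (by
          rw [Nat.mod_mul_right_mod]; omega)).2
      · exact if_neg (by omega)
    have F00 : ∀ j, F j 0 = 0 := by
      intro j
      rw [Fi j 0 (Nat.zero_le _)]
      exact (h0 _ (Nat.mod_lt _ (by omega)) (by rw [Nat.mod_mul_right_mod]; omega)).1
    have FL : ∀ j, Lip (F j) := by
      intro j x
      rcases Nat.lt_or_ge x N with hx | hx
      · rw [Fi j x hx.le, Fi j (x + 1) hx]
        exact h2 _ _ ⟨x, 2 * j % (2 * M), Nat.mod_lt _ (by omega), Or.inl ⟨hx, rfl, rfl⟩⟩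
      · rw [Fo j x hx, Fo j (x + 1) (by omega)]
        simp
    have F0M : F 0 = F M := by
      funext x
      show (if x ≤ N then D (x, 2 * 0 % (2 * M)) else r) = (if x ≤ N then D (x, 2 * M % (2 * M)) else r)
      rw [Nat.mod_self, Nat.mul_zero, Nat.zero_mod]
    refine ⟨F 0, FL 0, Fo 0, F00 0, ?_⟩
    rw [Rel_Wd (FL 0) (FL 0)]
    refine ⟨F, rfl, F0M.symm, fun j _ => FL j, ?_⟩
    intro j hj
    rw [Rel_dr (FL j) (FL (j + 1))]
    have m1 : 2 * j % (2 * M) = 2 * j := Nat.mod_eq_of_lt (by omega)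
    have Fj : ∀ x, x ≤ N → F j x = D (x, 2 * j) := fun x hx => by rw [Fi j x hx, m1]
    have Fj' : ∀ x, x ≤ N → F (j + 1) x = D (x, up M (2 * j + 1)) := fun x hx => by
      rw [Fi (j + 1) x hx, up_odd]
    refine ⟨by rw [F00, F00], fun x hx => by rw [Fo _ x hx, Fo _ x hx], fun x => D (x, 2 * j + 1), ?_, ?_, ?_, ?_⟩
    · intro x hx
      exact h2 _ _ ⟨x, 2 * j + 1, by omega, Or.inl ⟨hx, rfl, rfl⟩⟩
    · intro x hx
      constructor
      · rw [Fj x hx]
        exact h2 _ _ ⟨x, 2 * j, by omega, Or.inr ⟨hx, rfl, by rw [up_even hj]⟩⟩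
      · rw [Fj' x hx]
        exact h2 _ _ ⟨x, 2 * j + 1, by omega, Or.inr ⟨hx, rfl, rfl⟩⟩
    · intro x hx
      by_cases ht : t (2 * j) x = true
      · rw [if_pos ht, Fj x hx.le]
        exact (h1 _ _ ⟨x, 2 * j, hx, by omega, Or.inl ⟨ht, rfl, by rw [up_even hj]⟩⟩).symm
      · rw [if_neg ht, Fj (x + 1) hx]
        exact (h1 _ _ ⟨x, 2 * j, hx, by omega, Or.inr ⟨by simpa using ht, rfl, by rw [up_even hj]⟩⟩).symm
    · intro x hx
      by_cases ht : t (2 * j + 1) x = true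
      · rw [if_pos ht, Fj' (x + 1) hx]
        exact (h1 _ _ ⟨x, 2 * j + 1, hx, by omega, Or.inl ⟨ht, rfl, rfl⟩⟩).symm
      · rw [if_neg ht, Fj' x hx.le]
        exact (h1 _ _ ⟨x, 2 * j + 1, hx, by omega, Or.inr ⟨by simpa using ht, rfl, rfl⟩⟩).symm

/-- **the invariant of the word is the number of non contractible loops** -/
theorem Pot_Wn {N M : ℕ} (hM : 0 < M) (t : ℕ → ℕ → Bool) (r : ℤ) :
    Pot N (Wd N t M) r ↔ |r| ≤ Wn N M t := (Pot_iff_LPot hM t r).trans (LPot_iff hM t r)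

end Ann32
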