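import Pool.Agent.Helper32.Ann.Trace
import Pool.Agent.Helper32.Ann.Lat
import Pool.Agent.Helper9.DR.Poly

/-!
# ANNULUS (A6): `tr_{V_N} D_N(1/2)^M` is the expectation of `dim V_W` (helper32)
-/

namespace Ann32
open Lt Pool.Agent.Helper9.DR

/-- the row as a function on the natural numbers -/
def ex {n : ℕ} (t : Fin n → Bool) : ℕ → Bool := fun x => if h : x < n then t ⟨x, h⟩ else false

theorem sum_snoc {n : ℕ} {β A : Type*} [Fintype β] [AddCommMonoid A] (G : (Fin (n + 1) → β) → A) :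
    ∑ s : Fin (n + 1) → β, G s = ∑ s : Fin n → β, ∑ b : β, G (Fin.snoc s b) := by
  rw [← (Fin.snocEquiv (fun _ : Fin (n + 1) => β)).sum_comp, Fintype.sum_prod_type, Finset.sum_comm]
  rfl

theorem ex_snoc_lt {n : ℕ} (t : Fin n → Bool) (b : Bool) {x : ℕ} (hx : x < n) :
    ex (Fin.snoc t b : Fin (n + 1) → Bool) x = ex t x := by
  unfold ex
  rw [dif_pos (by omega : x < n + 1), dif_pos hx]
  have : (⟨x, by omega⟩ : Fin (n + 1)) = Fin.castSucc ⟨x, hx⟩ := rfl
  rw [this, Fin.snoc_castSucc]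

theorem ex_snoc_last {n : ℕ} (t : Fin n → Bool) (b : Bool) : ex (Fin.snoc t b : Fin (n + 1) → Bool) n = b := by
  unfold ex
  rw [dif_pos (by omega : n < n + 1)]
  have : (⟨n, by omega⟩ : Fin (n + 1)) = Fin.last n := rfl
  rw [this, Fin.snoc_last]

theorem lowW_congr {t t' : ℕ → Bool} : ∀ {n : ℕ}, (∀ x, x < n → t x = t' x) → lowW t n = lowW t' n
  | 0, _ => rfl
  | n + 1, h => by
    show lowW t n ++ _ = lowW t' n ++ _
    rw [lowW_congr (fun x hx => h x (by omega)), h n (by omega)]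

theorem uppW_congr {t t' : ℕ → Bool} : ∀ {n : ℕ}, (∀ x, x < n → t x = t' x) → uppW t n = uppW t' n
  | 0, _ => rfl
  | n + 1, h => by
    show _ ++ uppW t n = _ ++ uppW t' n
    rw [uppW_congr (fun x hx => h x (by omega)), h n (by omega)]

theorem Wd_congr {N : ℕ} {t t' : ℕ → ℕ → Bool} : ∀ {m : ℕ}, (∀ y, y < 2 * m → ∀ x, x < N → t y x = t' y x) →
    Wd N t m = Wd N t' m
  | 0, _ => rfl
  | m + 1, h => by
    show Wd N t m ++ drW N (t (2 * m)) (t (2 * m + 1)) = Wd N t' m ++ drW N (t' (2 * m)) (t' (2 * m + 1))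
    rw [Wd_congr (fun y hy x hx => h y (by omega) x hx)]
    unfold drW
    rw [lowW_congr (fun x hx => h (2 * m) (by omega) x hx), uppW_congr (fun x hx => h (2 * m + 1) (by omega) x hx)]

section tower

variable {K : Type*} [Field K] [CharZero K] {V : Type*} [AddCommGroup V] [Module K V] (T : TrTower K V)

/-- `X_n ... X_1` -/
noncomputable def Fo : ℕ → Module.End K V
  | 0 => 1
  | n + 1 => T.X (n + 1) (1 / 2) * Fo n

/-- `X_1 ... X_n` -/
noncomputable def Ba : ℕ → Module.End K V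
  | 0 => 1
  | n + 1 => Ba n * T.X (n + 1) (1 / 2)

theorem two_X (i : ℕ) : (1 : Module.End K V) + T.e i = (2 : K) • T.X i (1 / 2) := by
  rw [T.X_def, smul_add, smul_smul, smul_smul]
  have h1 : (2 : K) * (1 / 2) = 1 := by norm_num
  have h2 : (2 : K) * (1 - 1 / 2) = 1 := by norm_num
  rw [h1, h2, one_smul, one_smul]

theorem act_tile (s : ℕ) : T.act [cap s, cup s] = T.e s := by
  show (1 * T.c s) * T.k s = T.e s
  rw [one_mul]
  rfl

theorem sum_low : ∀ n : ℕ, ∑ t : Fin n → Bool, T.act (lowW (ex t) n) = (2 : K) ^ n • Fo T n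
  | 0 => by
    rw [Fintype.sum_unique, pow_zero, one_smul]
    rfl
  | n + 1 => by
    rw [sum_snoc]
    have h1 : ∀ (t : Fin n → Bool) (b : Bool), T.act (lowW (ex (Fin.snoc t b : Fin (n + 1) → Bool)) (n + 1)) =
        (if b then (1 : Module.End K V) else T.e (n + 1)) * T.act (lowW (ex t) n) := by
      intro t b
      show T.act (lowW (ex (Fin.snoc t b : Fin (n + 1) → Bool)) n ++
        (if ex (Fin.snoc t b : Fin (n + 1) → Bool) n then [] else [cap (n + 1), cup (n + 1)])) = _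
      rw [T.act_append, ex_snoc_last, lowW_congr (fun x hx => ex_snoc_lt t b hx)]
      cases b with
      | true => rfl
      | false =>
        show T.act [cap (n + 1), cup (n + 1)] * _ = T.e (n + 1) * _
        rw [act_tile]
    have h2 : ∀ t : Fin n → Bool, ∑ b : Bool, T.act (lowW (ex (Fin.snoc t b : Fin (n + 1) → Bool)) (n + 1)) =
        ((2 : K) • T.X (n + 1) (1 / 2)) * T.act (lowW (ex t) n) := by
      intro t
      rw [Fintype.sum_bool, h1, h1, if_pos rfl, if_neg (by simp), ← add_mul, two_X]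
    rw [Finset.sum_congr rfl (fun t _ => h2 t), ← Finset.mul_sum, sum_low n]
    show _ = (2 : K) ^ (n + 1) • (T.X (n + 1) (1 / 2) * Fo T n)
    rw [smul_mul_smul_comm, pow_succ, mul_comm]

theorem sum_upp : ∀ n : ℕ, ∑ t : Fin n → Bool, T.act (uppW (ex t) n) = (2 : K) ^ n • Ba T n
  | 0 => by
    rw [Fintype.sum_unique, pow_zero, one_smul]
    rfl
  | n + 1 => by
    rw [sum_snoc]
    have h1 : ∀ (t : Fin n → Bool) (b : Bool), T.act (uppW (ex (Fin.snoc t b : Fin (n + 1) → Bool)) (n + 1)) =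
        T.act (uppW (ex t) n) * (if b then T.e (n + 1) else (1 : Module.End K V)) := by
      intro t b
      show T.act ((if ex (Fin.snoc t b : Fin (n + 1) → Bool) n then [cap (n + 1), cup (n + 1)] else []) ++
        uppW (ex (Fin.snoc t b : Fin (n + 1) → Bool)) n) = _
      rw [T.act_append, ex_snoc_last, uppW_congr (fun x hx => ex_snoc_lt t b hx)]
      cases b with
      | true =>
        show _ * T.act [cap (n + 1), cup (n + 1)] = _ * T.e (n + 1)
        rw [act_tile]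
      | false => rfl
    have h2 : ∀ t : Fin n → Bool, ∑ b : Bool, T.act (uppW (ex (Fin.snoc t b : Fin (n + 1) → Bool)) (n + 1)) =
        T.act (uppW (ex t) n) * ((2 : K) • T.X (n + 1) (1 / 2)) := by
      intro t
      rw [Fintype.sum_bool, h1, h1, if_pos rfl, if_neg (by simp), ← mul_add, add_comm, two_X]
    rw [Finset.sum_congr rfl (fun t _ => h2 t), ← Finset.sum_mul, sum_upp n]
    show _ = (2 : K) ^ (n + 1) • (Ba T n * T.X (n + 1) (1 / 2))
    rw [smul_mul_smul_comm, pow_succ]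

theorem Ba_Fo (N : ℕ) : Ba T N * Fo T N = T.Ah N 1 (1 / 2) := by
  have key : ∀ n m : ℕ, Ba T (m + n) * Fo T (m + n) = Ba T m * T.Ah n (m + 1) (1 / 2) * Fo T m := by
    intro n
    induction n with
    | zero =>
      intro m
      show Ba T m * Fo T m = Ba T m * (1 : Module.End K V) * Fo T m
      rw [mul_one]
    | succ n ih =>
      intro m
      have h1 := ih (m + 1)
      have e1 : m + 1 + n = m + (n + 1) := by ring
      rw [e1] at h1
      rw [h1, T.Ah_succ]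
      show (Ba T m * T.X (m + 1) (1 / 2)) * T.Ah n (m + 1 + 1) (1 / 2) * (T.X (m + 1) (1 / 2) * Fo T m) = _
      noncomm_ring
  have h2 := key N 0
  rw [zero_add] at h2
  rw [h2]
  show (1 : Module.End K V) * T.Ah N (0 + 1) (1 / 2) * 1 = _
  rw [one_mul, mul_one]

theorem Dh_eq (N : ℕ) : T.Dh N 0 (1 / 2) = T.k 0 * (Ba T N * Fo T N) * T.c 0 := by
  rw [Ba_Fo]
  exact (T.cap (fun _ => (1 / 2 : K)) (fun _ => (1 / 2 : K)) (List.replicate N ()) 0).symm

theorem act_dr (N : ℕ) (t t' : ℕ → Bool) :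
    T.act (drW N t t') = T.k 0 * (T.act (uppW t' N) * T.act (lowW t N)) * T.c 0 := by
  show T.act (lowW t N ++ (uppW t' N ++ [cap 0])) * T.c 0 = _
  rw [T.act_append, T.act_append]
  show ((1 : Module.End K V) * T.k 0) * T.act (uppW t' N) * T.act (lowW t N) * T.c 0 = _
  rw [one_mul]
  noncomm_ring

theorem sum_dr (N : ℕ) : ∑ t : Fin N → Bool, ∑ t' : Fin N → Bool, T.act (drW N (ex t) (ex t')) =
    ((2 : K) ^ N * (2 : K) ^ N) • T.Dh N 0 (1 / 2) := by
  have h1 : ∀ t : Fin N → Bool, ∑ t' : Fin N → Bool, T.act (drW N (ex t) (ex t')) =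
      T.k 0 * (((2 : K) ^ N • Ba T N) * T.act (lowW (ex t) N)) * T.c 0 := by
    intro t
    rw [← sum_upp, Finset.sum_mul, Finset.mul_sum, Finset.sum_mul]
    exact Finset.sum_congr rfl fun t' _ => act_dr T N _ _
  rw [Finset.sum_congr rfl (fun t _ => h1 t), ← Finset.sum_mul, ← Finset.mul_sum, ← Finset.mul_sum, sum_low, Dh_eq,
    smul_mul_smul_comm, mul_smul_comm, smul_mul_assoc]

theorem ext_snoc_lt {N M : ℕ} (ω : Cfg N M) (r r' : Fin N → Bool) {y x : ℕ} (hy : y < 2 * M) (hx : x < N) :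
    ext (N := N) (M := M + 1) (Fin.snoc (Fin.snoc ω r : Fin (2 * M + 1) → Fin N → Bool) r' :
      Fin (2 * M + 1 + 1) → Fin N → Bool) y x = ext ω y x := by
  unfold ext
  rw [dif_pos ⟨by omega, hx⟩, dif_pos ⟨hy, hx⟩]
  have e1 : (⟨y, by omega⟩ : Fin (2 * M + 1 + 1)) = Fin.castSucc (Fin.castSucc ⟨y, hy⟩) := rfl
  show (Fin.snoc (Fin.snoc ω r : Fin (2 * M + 1) → Fin N → Bool) r' : Fin (2 * M + 1 + 1) → Fin N → Bool)
    ⟨y, by omega⟩ ⟨x, hx⟩ = _
  rw [e1, Fin.snoc_castSucc (α := fun _ => Fin N → Bool), Fin.snoc_castSucc (α := fun _ => Fin N → Bool)]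

theorem ext_snoc_1 {N M : ℕ} (ω : Cfg N M) (r r' : Fin N → Bool) {x : ℕ} (hx : x < N) :
    ext (N := N) (M := M + 1) (Fin.snoc (Fin.snoc ω r : Fin (2 * M + 1) → Fin N → Bool) r' :
      Fin (2 * M + 1 + 1) → Fin N → Bool) (2 * M) x = ex r x := by
  unfold ext ex
  rw [dif_pos ⟨by omega, hx⟩, dif_pos hx]
  have e1 : (⟨2 * M, by omega⟩ : Fin (2 * M + 1 + 1)) = Fin.castSucc (Fin.last (2 * M)) := rfl
  show (Fin.snoc (Fin.snoc ω r : Fin (2 * M + 1) → Fin N → Bool) r' : Fin (2 * M + 1 + 1) → Fin N → Bool)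
    ⟨2 * M, by omega⟩ ⟨x, hx⟩ = _
  rw [e1, Fin.snoc_castSucc (α := fun _ => Fin N → Bool), Fin.snoc_last]

theorem ext_snoc_2 {N M : ℕ} (ω : Cfg N M) (r r' : Fin N → Bool) {x : ℕ} (hx : x < N) :
    ext (N := N) (M := M + 1) (Fin.snoc (Fin.snoc ω r : Fin (2 * M + 1) → Fin N → Bool) r' :
      Fin (2 * M + 1 + 1) → Fin N → Bool) (2 * M + 1) x = ex r' x := by
  unfold ext ex
  rw [dif_pos ⟨by omega, hx⟩, dif_pos hx]
  have e1 : (⟨2 * M + 1, by omega⟩ : Fin (2 * M + 1 + 1)) = Fin.last (2 * M + 1) := rfl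
  show (Fin.snoc (Fin.snoc ω r : Fin (2 * M + 1) → Fin N → Bool) r' : Fin (2 * M + 1 + 1) → Fin N → Bool)
    ⟨2 * M + 1, by omega⟩ ⟨x, hx⟩ = _
  rw [e1, Fin.snoc_last]

/-- **expansion of the powers of the transfer matrix over the configurations** -/
theorem sum_Wd (N : ℕ) : ∀ M : ℕ, ∑ ω : Cfg N M, T.act (Wd N (ext ω) M) =
    (2 : K) ^ (2 * M * N) • T.Dh N 0 (1 / 2) ^ M
  | 0 => by
    have : Unique (Cfg N 0) := inferInstanceAs (Unique (Fin 0 → Fin N → Bool))
    rw [Fintype.sum_unique, pow_zero, Nat.mul_zero, Nat.zero_mul, pow_zero, one_smul]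
    rfl
  | M + 1 => by
    have h0 : ∑ ω : Cfg N (M + 1), T.act (Wd N (ext ω) (M + 1)) =
        ∑ ω : Fin (2 * M + 1 + 1) → Fin N → Bool, T.act (Wd N (ext (N := N) (M := M + 1) ω) (M + 1)) := rfl
    rw [h0, sum_snoc, sum_snoc]
    have h1 : ∀ (ω : Cfg N M) (r r' : Fin N → Bool),
        T.act (Wd N (ext (N := N) (M := M + 1) (Fin.snoc (Fin.snoc ω r : Fin (2 * M + 1) → Fin N → Bool) r' :
          Fin (2 * M + 1 + 1) → Fin N → Bool)) (M + 1)) = T.act (drW N (ex r) (ex r')) * T.act (Wd N (ext ω) M) := by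
      intro ω r r'
      show T.act (Wd N _ M ++ drW N _ _) = _
      rw [T.act_append, Wd_congr (fun y hy x hx => ext_snoc_lt ω r r' hy hx)]
      unfold drW
      rw [lowW_congr (fun x hx => ext_snoc_1 ω r r' hx), uppW_congr (fun x hx => ext_snoc_2 ω r r' hx)]
    have h2 : ∀ ω : Cfg N M, ∑ r : Fin N → Bool, ∑ r' : Fin N → Bool,
        T.act (Wd N (ext (N := N) (M := M + 1) (Fin.snoc (Fin.snoc ω r : Fin (2 * M + 1) → Fin N → Bool) r' :
          Fin (2 * M + 1 + 1) → Fin N → Bool)) (M + 1)) =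
        (((2 : K) ^ N * (2 : K) ^ N) • T.Dh N 0 (1 / 2)) * T.act (Wd N (ext ω) M) := by
      intro ω
      rw [← sum_dr, Finset.sum_mul]
      refine Finset.sum_congr rfl fun r _ => ?_
      rw [Finset.sum_mul]
      exact Finset.sum_congr rfl fun r' _ => h1 ω r r'
    rw [Finset.sum_congr rfl (fun ω _ => h2 ω), ← Finset.mul_sum, sum_Wd N M, smul_mul_smul_comm, ← pow_succ',
      ← pow_add, ← pow_add]
    congr 2
    ring

theorem Dh_mem (N : ℕ) {v : V} (hv : v ∈ T.VN N) : (T.Dh N 0 (1 / 2)) v ∈ T.VN N := by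
  have h := sum_dr T N
  have h2 : ((2 : K) ^ N * (2 : K) ^ N) ≠ 0 := mul_ne_zero (pow_ne_zero _ two_ne_zero) (pow_ne_zero _ two_ne_zero)
  have h3 : T.Dh N 0 (1 / 2) = ((2 : K) ^ N * (2 : K) ^ N)⁻¹ • ∑ t : Fin N → Bool, ∑ t' : Fin N → Bool,
      T.act (drW N (ex t) (ex t')) := by
    rw [h, smul_smul, inv_mul_cancel₀ h2, one_smul]
  rw [h3, LinearMap.smul_apply, LinearMap.sum_apply]
  refine Submodule.smul_mem _ _ (Submodule.sum_mem _ fun t _ => ?_)
  rw [LinearMap.sum_apply]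
  refine Submodule.sum_mem _ fun t' _ => ?_
  have hcl := dr_cl N (ex t) (ex t')
  have h4 := T.act_mem hcl.1 v hv
  rwa [hcl.2] at h4

theorem Dh_pow_mem (N M : ℕ) {v : V} (hv : v ∈ T.VN N) : (T.Dh N 0 (1 / 2) ^ M) v ∈ T.VN N := by
  induction M with
  | zero => exact hv
  | succ M ih =>
    rw [pow_succ', Module.End.mul_apply]
    exact Dh_mem T N ih

/-- **(A6)** the trace of the transfer matrix is the expectation of the dimension of `V_W`, `W` = number of non
contractible loops -/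
theorem trace_Dh (N : ℕ) {M : ℕ} (hM : 0 < M) :
    trU (T.VN N) (T.Dh N 0 (1 / 2) ^ M) =
      (∑ ω : Cfg N M, (Module.finrank K (T.VN (Wn N M (ext ω))) : K)) / 2 ^ (2 * M * N) := by
  have h1 := sum_Wd T N M
  have h2 : ((2 : K) ^ (2 * M * N)) ≠ 0 := pow_ne_zero _ two_ne_zero
  have hm : ∀ ω : Cfg N M, ∀ v ∈ T.VN N, T.act (Wd N (ext ω) M) v ∈ T.VN N := by
    intro ω v hv
    have hcl := Wd_cl N (ext ω) M
    have h4 := T.act_mem hcl.1 v hv
    rwa [hcl.2] at h4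
  have h3 := congrArg (trU (T.VN N)) h1
  rw [trU_sum _ (fun ω _ => hm ω), trU_smul (fun v hv => Dh_pow_mem T N M hv)] at h3
  rw [eq_div_iff h2, mul_comm, ← h3]
  exact Finset.sum_congr rfl fun ω _ => T.trace_word (Wd_cl N (ext ω) M) _ (fun r => Pot_Wn hM (ext ω) r)

end tower

end Ann32
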