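import Pool.Agent.Helper32.Ann.Dual
import Pool.Agent.Full.Perc.BK

/-!
# The number of non contractible loops and disjoint dual arms in independent slabs

* `Ex_dict`: the uniform configuration of the cylinder as a uniform subset of the set of the tiles.
* `P_ball`: events of disjoint sets of tiles are independent.
* `Wn_prob`: `P (2 j ≤ Wn) ≤ ∏ P (j disjoint dual arms in the slab k)` for every family of disjoint slabs.
-/

set_option autoImplicit false

namespace Ann32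
open Pool.Agent.Helper69.RSW (P P_mono P_congr P_restrict P_indep P_true Dep Up P_nonneg P_le_one)
open Full.Perc (Many)
open Finset hiding ext

/-! ### independence -/

theorem P_ball {E ι : Type*} [DecidableEq E] (F : Finset E) (s : Finset ι) (G : ι → Finset E)
    (A : ι → Finset E → Prop) (hG : ∀ i ∈ s, G i ⊆ F) (hd : ∀ i ∈ s, ∀ j ∈ s, i ≠ j → Disjoint (G i) (G j))
    (hA : ∀ i ∈ s, Dep (G i) (A i)) : P F (fun S => ∀ i ∈ s, A i S) = ∏ i ∈ s, P F (A i) := by
  classical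
  induction s using Finset.induction_on with
  | empty =>
    rw [prod_empty, ← P_true F]
    exact P_congr fun S _ => by simp
  | insert a s ha ih =>
    rw [prod_insert ha, ← ih (fun i hi => hG i (mem_insert_of_mem hi))
      (fun i hi j hj => hd i (mem_insert_of_mem hi) j (mem_insert_of_mem hj)) (fun i hi => hA i (mem_insert_of_mem hi))]
    have h1 : P F (fun S => ∀ i ∈ insert a s, A i S) = P F (fun S => A a S ∧ ∀ i ∈ s, A i S) :=
      P_congr fun S _ => by simp only [mem_insert, forall_eq_or_imp]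
    rw [h1]
    refine P_indep (G := G a) (H := s.biUnion G) (hG a (mem_insert_self _ _))
      (biUnion_subset.2 fun i hi => hG i (mem_insert_of_mem hi)) ?_ (hA a (mem_insert_self _ _)) ?_
    · rw [disjoint_biUnion_right]
      intro i hi
      exact hd a (mem_insert_self _ _) i (mem_insert_of_mem hi) (fun h => ha (h ▸ hi))
    · intro S
      refine forall₂_congr fun i hi => ?_
      rw [hA i (mem_insert_of_mem hi) S, hA i (mem_insert_of_mem hi) (S ∩ s.biUnion G), inter_assoc,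
        inter_eq_right.2 (subset_biUnion_of_mem G hi)]

/-! ### the dictionary -/

theorem mem_colT {t : ℕ → ℕ → Bool} {r N y0 y1 : ℕ} {p : ℕ × ℕ} :
    p ∈ colT t r N y0 y1 ↔ ((y0 ≤ p.1 ∧ p.1 < y1) ∧ p.2 < N) ∧ (t p.1 p.2 = true ↔ (p.2 + p.1) % 2 = r) := by
  unfold colT
  rw [mem_filter, mem_RT]

theorem colT_inter (t : ℕ → ℕ → Bool) (r N : ℕ) {a b y0 y1 : ℕ} (ha : a ≤ y0) (hb : y1 ≤ b) :
    colT t r N a b ∩ RT N y0 y1 = colT t r N y0 y1 := by
  ext p
  rw [mem_inter, mem_colT, mem_colT, mem_RT]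
  constructor
  · rintro ⟨⟨_, h2⟩, h3⟩
    exact ⟨h3, h2⟩
  · rintro ⟨h3, h2⟩
    exact ⟨⟨⟨⟨by omega, by omega⟩, h3.2⟩, h2⟩, h3⟩

theorem colT_subset (t : ℕ → ℕ → Bool) (r N y0 y1 : ℕ) : colT t r N y0 y1 ⊆ RT N y0 y1 := filter_subset _ _

theorem card_RT (N y0 y1 : ℕ) : (RT N y0 y1).card = (y1 - y0) * N := by
  unfold RT
  rw [card_product, Nat.card_Ico, card_range]

theorem RT_mono {N a b y0 y1 : ℕ} (ha : a ≤ y0) (hb : y1 ≤ b) : RT N y0 y1 ⊆ RT N a b := by
  intro p hp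
  rw [mem_RT] at hp ⊢
  exact ⟨⟨by omega, by omega⟩, hp.2⟩

/-- **the uniform configuration is a uniform set of tiles** -/
theorem Ex_dict (N M : ℕ) {r : ℕ} (f : Finset (ℕ × ℕ) → ℝ) :
    Ex N M (fun ω => f (colT (ext ω) r N 0 (2 * M))) = Full.Perc.Ex (RT N 0 (2 * M)) f := by
  classical
  unfold Ex Full.Perc.Ex
  rw [card_RT, Nat.sub_zero]
  congr 1
  refine Finset.sum_nbij' (fun ω => colT (ext ω) r N 0 (2 * M))
    (fun S => fun y x => decide (((y : ℕ), (x : ℕ)) ∈ S ↔ ((x : ℕ) + y) % 2 = r)) ?_ ?_ ?_ ?_ ?_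
  · intro ω _
    rw [mem_powerset]
    exact colT_subset _ _ _ _ _
  · intro S _
    exact mem_univ _
  · intro ω _
    funext y x
    have h1 : ext ω y x = ω y x := by
      unfold ext
      rw [dif_pos ⟨y.2, x.2⟩]
    have h2 : ((y : ℕ), (x : ℕ)) ∈ colT (ext ω) r N 0 (2 * M) ↔ (ω y x = true ↔ ((x : ℕ) + y) % 2 = r) := by
      rw [mem_colT, h1]
      simp only
      exact and_iff_right ⟨⟨Nat.zero_le _, y.2⟩, x.2⟩
    rw [show ω y x = decide (ω y x = true) by simp]
    apply decide_eq_decide.2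
    rw [h2]
    tauto
  · intro S hS
    rw [mem_powerset] at hS
    ext ⟨y, x⟩
    rw [mem_colT]
    simp only
    constructor
    · rintro ⟨⟨⟨_, h1⟩, h2⟩, h3⟩
      unfold ext at h3
      rw [dif_pos ⟨h1, h2⟩, decide_eq_true_iff] at h3
      simp only at h3
      tauto
    · intro h
      have h1 := mem_RT.1 (hS h)
      simp only at h1
      refine ⟨h1, ?_⟩
      unfold ext
      rw [dif_pos ⟨h1.1.2, h1.2⟩, decide_eq_true_iff]
      simp only
      tauto
  · intro ω _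
    rfl

/-! ### the slabs -/

/-- `k` disjoint dual arms in the slab `y0 ≤ y ≤ y1` -/
def SlabMany (N y0 y1 k : ℕ) (S : Finset (ℕ × ℕ)) : Prop := Many (Arm 1 0 N y0 y1) k (S ∩ RT N y0 y1)

theorem dep_SlabMany (N y0 y1 k : ℕ) : Dep (RT N y0 y1) (SlabMany N y0 y1 k) := by
  intro S
  unfold SlabMany
  rw [inter_assoc, inter_self]

theorem slabMany {N M : ℕ} (hN : N % 2 = 0) (hM : 0 < M) (t : ℕ → ℕ → Bool) {y0 y1 : ℕ} (h01 : y0 ≤ y1)
    (h1 : y1 < 2 * M) : SlabMany N y0 y1 (Wn N M t / 2) (colT t 1 N 0 (2 * M)) := by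
  obtain ⟨T, h2, h3, h4⟩ := slab_arms hN hM t h01 h1
  unfold SlabMany
  rw [colT_inter t 1 N (Nat.zero_le _) h1.le]
  exact ⟨T, h2, h3, h4⟩

/-- **the number of non contractible loops and disjoint dual arms in disjoint slabs** -/
theorem Wn_prob {N M : ℕ} (hN : N % 2 = 0) (hM : 0 < M) {ι : Type*} (s : Finset ι) (y0 y1 : ι → ℕ)
    (h01 : ∀ i ∈ s, y0 i ≤ y1 i) (h1 : ∀ i ∈ s, y1 i < 2 * M)
    (hd : ∀ i ∈ s, ∀ j ∈ s, i ≠ j → y1 i ≤ y0 j ∨ y1 j ≤ y0 i) (k : ℕ) :
    Ex N M (fun ω => if 2 * k ≤ Wn N M (ext ω) then 1 else 0) ≤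
      ∏ i ∈ s, P (RT N (y0 i) (y1 i)) (Many (Arm 1 0 N (y0 i) (y1 i)) k) := by
  classical
  have e1 : Ex N M (fun ω => if 2 * k ≤ Wn N M (ext ω) then (1 : ℝ) else 0) ≤
      Ex N M (fun ω => if ∀ i ∈ s, SlabMany N (y0 i) (y1 i) k (colT (ext ω) 1 N 0 (2 * M)) then 1 else 0) := by
    unfold Ex
    refine div_le_div_of_nonneg_right (sum_le_sum fun ω _ => ?_) (by positivity)
    by_cases h : 2 * k ≤ Wn N M (ext ω)
    · rw [if_pos h, if_pos]
      intro i hi
      have h2 := slabMany hN hM (ext ω) (h01 i hi) (h1 i hi)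
      unfold SlabMany at h2 ⊢
      exact Full.Perc.many_of_le (by omega) h2
    · rw [if_neg h]
      split_ifs <;> norm_num
  refine e1.trans (le_of_eq ?_)
  have e2 : Full.Perc.Ex (RT N 0 (2 * M)) (fun S => if ∀ i ∈ s, SlabMany N (y0 i) (y1 i) k S then 1 else 0) =
      P (RT N 0 (2 * M)) (fun S => ∀ i ∈ s, SlabMany N (y0 i) (y1 i) k S) := by
    rw [← Full.Perc.Ex_ite]
    refine Full.Perc.Ex_congr fun S _ => ?_
    by_cases h : ∀ i ∈ s, SlabMany N (y0 i) (y1 i) k S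
    · rw [if_pos h, if_pos h]
    · rw [if_neg h, if_neg h]
  rw [Ex_dict N M (r := 1) (fun S => if ∀ i ∈ s, SlabMany N (y0 i) (y1 i) k S then 1 else 0), e2,
    P_ball (RT N 0 (2 * M)) s (fun i => RT N (y0 i) (y1 i)) (fun i => SlabMany N (y0 i) (y1 i) k)
      (fun i hi => RT_mono (Nat.zero_le _) (h1 i hi).le) ?_ (fun i _ => dep_SlabMany _ _ _ _)]
  · apply prod_congr rfl
    intro i hi
    rw [P_restrict (RT_mono (Nat.zero_le _) (h1 i hi).le) (dep_SlabMany _ _ _ _)]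
    apply P_congr
    intro S hS
    unfold SlabMany
    rw [inter_eq_left.2 hS]
  · intro i hi j hj hij
    rw [Finset.disjoint_left]
    intro p hp hq
    rw [mem_RT] at hp hq
    rcases hd i hi j hj hij with h | h <;> omega

end Ann32
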