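import Pool.Agent.Helper32.Ann.Slab
import Pool.Agent.Helper32.Ann.Lat
import Pool.Agent.Helper81.Ann.Couple
import Pool.Agent.Rect.Perc.Dual

/-!
# Planar duality for a slab and the disjoint dual arms (A7a)

If `W = Wn N M t` (`N` even) then every slab `y0 ≤ y ≤ y1 < 2M` contains `W / 2` pairwise disjoint families of tiles, with a
drawn diagonal of the colour `1`, each of which contains a path from the lower to the upper side of the slab.
-/

set_option autoImplicit false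

namespace Ann32
open Finset

/-! ### the counting lemma -/

theorem rect_count (A B c : ℕ) (h : ℕ → ℕ → ZMod 2)
    (hb : ∀ i ≤ A, (i + c) % 2 = 1 → h i 0 = 1) (ht : ∀ i ≤ A, (i + B + c) % 2 = 1 → h i B = 0)
    (hl : ∀ j ≤ B, (j + c) % 2 = 0 → h 0 j = 1) (hr : ∀ j ≤ B, (A + j + c) % 2 = 0 → h A j = 0)
    (H : ∀ i < A, ∀ j < B, (h i j + h (i+1) (j+1)) * (h (i+1) j + h i (j+1)) = 0) : False := by
  have h2 : ∀ a : ZMod 2, a + a = 0 := CharTwo.add_self_eq_zero
  have h0 := H47Perc.RC.sq_count A B h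
  rw [sum_eq_zero (fun i hi => sum_eq_zero (fun j hj => H i (mem_range.1 hi) j (mem_range.1 hj))),
    sum_add_distrib, sum_add_distrib] at h0
  have hbot : ∀ k ≤ A, ∑ i ∈ range k, h i 0 * h (i+1) 0 =
      (if c % 2 = 0 then h 0 0 else 0) + (if (k + c) % 2 = 0 then h k 0 else 0) := by
    intro k
    induction k with
    | zero =>
      intro _
      rw [sum_range_zero, Nat.zero_add, h2]
    | succ k ih =>
      intro hk
      rw [sum_range_succ, ih (by omega)]
      rcases Nat.mod_two_eq_zero_or_one (k + c) with hk2 | hk2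
      · rw [if_pos hk2, if_neg (by omega : ¬ (k + 1 + c) % 2 = 0), hb (k + 1) hk (by omega), mul_one,
          add_assoc, h2]
      · rw [if_neg (by omega : ¬ (k + c) % 2 = 0), if_pos (by omega : (k + 1 + c) % 2 = 0),
          hb k (by omega) hk2, one_mul, add_zero]
  have hlft : ∀ k ≤ B, ∑ j ∈ range k, h 0 j * h 0 (j+1) =
      (if c % 2 = 1 then h 0 0 else 0) + (if (k + c) % 2 = 1 then h 0 k else 0) := by
    intro k
    induction k with
    | zero =>
      intro _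
      rw [sum_range_zero, Nat.zero_add, h2]
    | succ k ih =>
      intro hk
      rw [sum_range_succ, ih (by omega)]
      rcases Nat.mod_two_eq_zero_or_one (k + c) with hk2 | hk2
      · rw [if_neg (by omega : ¬ (k + c) % 2 = 1), if_pos (by omega : (k + 1 + c) % 2 = 1),
          hl k (by omega) hk2, one_mul, add_zero]
      · rw [if_pos hk2, if_neg (by omega : ¬ (k + 1 + c) % 2 = 1), hl (k + 1) hk (by omega), mul_one,
          add_assoc, h2]
  have htop : ∑ i ∈ range A, h i B * h (i+1) B = 0 := by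
    apply sum_eq_zero
    intro i hi
    rw [mem_range] at hi
    rcases Nat.mod_two_eq_zero_or_one (i + B + c) with hk2 | hk2
    · rw [ht (i + 1) (by omega) (by omega), mul_zero]
    · rw [ht i (by omega) hk2, zero_mul]
  have hrgt : ∑ j ∈ range B, h A j * h A (j+1) = 0 := by
    apply sum_eq_zero
    intro j hj
    rw [mem_range] at hj
    rcases Nat.mod_two_eq_zero_or_one (A + j + c) with hk2 | hk2
    · rw [hr j (by omega) hk2, zero_mul]
    · rw [hr (j + 1) (by omega) (by omega), mul_zero]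
  have e1 : (if (A + c) % 2 = 0 then h A 0 else 0) = 0 := by
    split_ifs with hh
    · exact hr 0 (Nat.zero_le _) (by omega)
    · rfl
  have e2 : (if (B + c) % 2 = 1 then h 0 B else 0) = 0 := by
    split_ifs with hh
    · exact ht 0 (Nat.zero_le _) (by omega)
    · rfl
  rw [hbot A le_rfl, hlft B le_rfl, htop, hrgt, e1, e2] at h0
  rcases Nat.mod_two_eq_zero_or_one c with hc | hc
  · rw [if_pos hc, if_neg (by omega), hl 0 (Nat.zero_le _) (by omega)] at h0
    exact absurd h0 (by decide)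
  · rw [if_neg (by omega), if_pos hc, hb 0 (Nat.zero_le _) (by omega)] at h0
    exact absurd h0 (by decide)

/-! ### duality for a slab -/

/-- the tiles of the slab -/
def RT (N y0 y1 : ℕ) : Finset (ℕ × ℕ) := Ico y0 y1 ×ˢ range N

theorem mem_RT {N y0 y1 : ℕ} {p : ℕ × ℕ} : p ∈ RT N y0 y1 ↔ (y0 ≤ p.1 ∧ p.1 < y1) ∧ p.2 < N := by
  unfold RT
  rw [mem_product, mem_Ico, mem_range]

/-- either a left right path of the colour `0` or a bottom top path of the colour `1` -/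
theorem slab_dual (N y0 y1 : ℕ) (h01 : y0 ≤ y1) (T : Finset (ℕ × ℕ)) :
    (∃ y y', y0 ≤ y ∧ y ≤ y1 ∧ y % 2 = 0 ∧ y0 ≤ y' ∧ y' ≤ y1 ∧ (N + y') % 2 = 0 ∧
      Con 0 (RT N y0 y1 \ T) (0, y) (N, y')) ∨ Arm 1 0 N y0 y1 T := by
  classical
  by_contra hcon
  rw [not_or] at hcon
  obtain ⟨c1, c2⟩ := hcon
  obtain ⟨L, rfl⟩ : ∃ L, y1 = y0 + L := ⟨y1 - y0, by omega⟩
  let A : ℕ × ℕ → Prop := fun p => ∃ y, y0 ≤ y ∧ y ≤ y0 + L ∧ y % 2 = 0 ∧ Con 0 (RT N y0 (y0 + L) \ T) (0, y) p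
  let B : ℕ × ℕ → Prop := fun p => ∃ x, x ≤ N ∧ (x + y0) % 2 = 1 ∧ Con 1 T (x, y0) p
  let h : ℕ → ℕ → ZMod 2 := fun i j => if (i + j + y0) % 2 = 1 then (if B (i, y0 + j) then 1 else 0)
    else (if A (i, y0 + j) then 1 else 0)
  have hodd : ∀ i j, (i + j + y0) % 2 = 1 → h i j = if B (i, y0 + j) then 1 else 0 := by
    intro i j hij
    simp only [h]
    rw [if_pos hij]
  have heven : ∀ i j, (i + j + y0) % 2 = 0 → h i j = if A (i, y0 + j) then 1 else 0 := by
    intro i j hij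
    simp only [h]
    rw [if_neg (by omega)]
  have hA : ∀ u v : ℕ × ℕ, DE 0 (RT N y0 (y0 + L) \ T) u v → (A u ↔ A v) := by
    intro u v he
    constructor
    · rintro ⟨y, q1, q2, q3, q4⟩
      exact ⟨y, q1, q2, q3, q4.tail (Or.inl he)⟩
    · rintro ⟨y, q1, q2, q3, q4⟩
      exact ⟨y, q1, q2, q3, q4.tail (Or.inr he)⟩
  have hB : ∀ u v : ℕ × ℕ, DE 1 T u v → (B u ↔ B v) := by
    intro u v he
    constructor
    · rintro ⟨x, q1, q2, q3⟩
      exact ⟨x, q1, q2, q3.tail (Or.inl he)⟩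
    · rintro ⟨x, q1, q2, q3⟩
      exact ⟨x, q1, q2, q3.tail (Or.inr he)⟩
  have hz : ∀ (p q : Prop) [Decidable p] [Decidable q], (p ↔ q) → (if p then (1 : ZMod 2) else 0) + (if q then 1 else 0) = 0 := by
    intro p q _ _ hpq
    by_cases hp : p
    · rw [if_pos hp, if_pos (hpq.1 hp)]
      exact CharTwo.add_self_eq_zero _
    · rw [if_neg hp, if_neg (fun hq => hp (hpq.2 hq)), add_zero]
  refine rect_count N L y0 h ?_ ?_ ?_ ?_ ?_
  · intro i hi hi2
    rw [hodd i 0 (by omega), if_pos]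
    exact ⟨i, hi, hi2, Relation.ReflTransGen.refl⟩
  · intro i hi hi2
    rw [hodd i L hi2, if_neg]
    rintro ⟨x, q1, q2, q3⟩
    exact c2 ⟨x, i, Nat.zero_le _, q1, q2, q3⟩
  · intro j hj hj2
    rw [heven 0 j (by omega), if_pos]
    exact ⟨y0 + j, by omega, by omega, by omega, Relation.ReflTransGen.refl⟩
  · intro j hj hj2
    rw [heven N j hj2, if_neg]
    rintro ⟨y, q1, q2, q3, q4⟩
    exact c1 ⟨y, y0 + j, q1, q2, q3, by omega, by omega, by omega, q4⟩
  · intro i hi j hj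
    have hmem : (y0 + j, i) ∈ RT N y0 (y0 + L) := mem_RT.2 ⟨⟨by simp only; omega, by simp only; omega⟩, hi⟩
    rcases Nat.mod_two_eq_zero_or_one (i + j + y0) with hij | hij
    · -- the main diagonal has the colour 0
      rw [heven i j hij, heven (i+1) (j+1) (by omega), hodd (i+1) j (by omega), hodd i (j+1) (by omega)]
      by_cases hT : (y0 + j, i) ∈ T
      · rw [hz (B (i + 1, y0 + j)) (B (i, y0 + (j + 1))) (hB _ _ ⟨i, y0 + j, hT, Or.inr ⟨by omega, rfl, rfl⟩⟩),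
          mul_zero]
      · rw [hz (A (i, y0 + j)) (A (i + 1, y0 + (j + 1)))
          (hA _ _ ⟨i, y0 + j, mem_sdiff.2 ⟨hmem, hT⟩, Or.inl ⟨by omega, rfl, rfl⟩⟩), zero_mul]
    · rw [hodd i j hij, hodd (i+1) (j+1) (by omega), heven (i+1) j (by omega), heven i (j+1) (by omega)]
      by_cases hT : (y0 + j, i) ∈ T
      · rw [hz (B (i, y0 + j)) (B (i + 1, y0 + (j + 1))) (hB _ _ ⟨i, y0 + j, hT, Or.inl ⟨by omega, rfl, rfl⟩⟩),
          zero_mul]
      · rw [hz (A (i + 1, y0 + j)) (A (i, y0 + (j + 1)))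
          (hA _ _ ⟨i, y0 + j, mem_sdiff.2 ⟨hmem, hT⟩, Or.inr ⟨by omega, rfl, rfl⟩⟩), mul_zero]

/-! ### the levels -/

section Lev
variable {N M : ℕ} {t : ℕ → ℕ → Bool}

theorem reach_dst (t : ℕ → ℕ → Bool) {a : ℕ × ℕ} (h1 : a.1 ≤ N) (h2 : a.2 < 2 * M) :
    Reach N M t (dst N M t a) a := by
  obtain ⟨x, y⟩ := a
  obtain ⟨k, hk⟩ := reach_all (N := N) (M := M) t h1 h2
  exact dst_reach hk

theorem E0_bound {a b : ℕ × ℕ} (h : E0 N M t a b) : (a.1 ≤ N ∧ a.2 < 2 * M) ∧ (b.1 ≤ N ∧ b.2 < 2 * M) := by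
  obtain ⟨x, y, hx, hy, ⟨_, rfl, rfl⟩ | ⟨_, rfl, rfl⟩⟩ := h
  · exact ⟨⟨hx.le, hy⟩, hx, up_lt hy⟩
  · exact ⟨⟨hx, hy⟩, hx.le, up_lt hy⟩

theorem E1_bound {a b : ℕ × ℕ} (h : E1 N M a b) : (a.1 ≤ N ∧ a.2 < 2 * M) ∧ (b.1 ≤ N ∧ b.2 < 2 * M) := by
  obtain ⟨x, y, hy, ⟨hx, rfl, rfl⟩ | ⟨hx, rfl, rfl⟩⟩ := h
  · exact ⟨⟨hx.le, hy⟩, hx, hy⟩
  · exact ⟨⟨hx, hy⟩, hx, up_lt hy⟩

theorem dst_E0 {a b : ℕ × ℕ} (h : E0 N M t a b) : dst N M t a = dst N M t b := by
  obtain ⟨⟨a1, a2⟩, b1, b2⟩ := E0_bound h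
  exact le_antisymm (dst_le ((reach_dst t b1 b2).step0 (Or.inr h))) (dst_le ((reach_dst t a1 a2).step0 (Or.inl h)))

theorem dst_E1 {a b : ℕ × ℕ} (h : E1 N M a b) :
    dst N M t b ≤ dst N M t a + 1 ∧ dst N M t a ≤ dst N M t b + 1 := by
  obtain ⟨⟨a1, a2⟩, b1, b2⟩ := E1_bound h
  exact ⟨dst_le ((reach_dst t a1 a2).step1 (Or.inl h)), dst_le ((reach_dst t b1 b2).step1 (Or.inr h))⟩

theorem dst_left {y : ℕ} (hy : y < 2 * M) (h2 : y % 2 = 0) : dst N M t (0, y) = 0 :=
  Nat.le_zero.1 (dst_le (Reach.start y hy h2))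

theorem Wn_le_dst (hM : 0 < M) {y : ℕ} (hy : y < 2 * M) (h2 : y % 2 = 0) : Wn N M t ≤ dst N M t (N, y) :=
  (Wn_le_iff hM t _).2 ⟨y, hy, h2, reach_dst t le_rfl hy⟩

theorem dst_par {a : ℕ × ℕ} (h1 : a.1 ≤ N) (h2 : a.2 < 2 * M) : (a.1 + a.2) % 2 = dst N M t a % 2 := by
  obtain ⟨j, h3, h4, h5⟩ := H81Ann.reach_par' (reach_dst (N := N) t h1 h2)
  have := dst_le h5
  rw [h4, le_antisymm this h3]

/-- the sides of a tile -/
theorem dst_sides {x y : ℕ} (hx : x < N) (hy : y + 1 < 2 * M) :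
    (dst N M t (x + 1, y) ≤ dst N M t (x, y) + 1 ∧ dst N M t (x, y) ≤ dst N M t (x + 1, y) + 1) ∧
    (dst N M t (x, y + 1) ≤ dst N M t (x, y) + 1 ∧ dst N M t (x, y) ≤ dst N M t (x, y + 1) + 1) ∧
    (dst N M t (x + 1, y + 1) ≤ dst N M t (x + 1, y) + 1 ∧ dst N M t (x + 1, y) ≤ dst N M t (x + 1, y + 1) + 1) ∧
    (dst N M t (x + 1, y + 1) ≤ dst N M t (x, y + 1) + 1 ∧ dst N M t (x, y + 1) ≤ dst N M t (x + 1, y + 1) + 1) := by
  have hu : up M y = y + 1 := Nat.mod_eq_of_lt hy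
  refine ⟨dst_E1 ⟨x, y, by omega, Or.inl ⟨hx, rfl, rfl⟩⟩, dst_E1 ⟨x, y, by omega, Or.inr ⟨by omega, rfl, by rw [hu]⟩⟩,
    dst_E1 ⟨x + 1, y, by omega, Or.inr ⟨by omega, rfl, by rw [hu]⟩⟩,
    dst_E1 ⟨x, y + 1, by omega, Or.inl ⟨hx, rfl, rfl⟩⟩⟩

theorem dst_main {x y : ℕ} (hx : x < N) (hy : y + 1 < 2 * M) (ht : t y x = true) :
    dst N M t (x, y) = dst N M t (x + 1, y + 1) := by
  have hu : up M y = y + 1 := Nat.mod_eq_of_lt hy
  exact dst_E0 ⟨x, y, hx, by omega, Or.inl ⟨ht, rfl, by rw [hu]⟩⟩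

theorem dst_anti {x y : ℕ} (hx : x < N) (hy : y + 1 < 2 * M) (ht : t y x = false) :
    dst N M t (x + 1, y) = dst N M t (x, y + 1) := by
  have hu : up M y = y + 1 := Nat.mod_eq_of_lt hy
  exact dst_E0 ⟨x, y, hx, by omega, Or.inr ⟨ht, rfl, by rw [hu]⟩⟩

/-- the tiles of the slab whose drawn diagonal has the colour `r` -/
def colT (t : ℕ → ℕ → Bool) (r N y0 y1 : ℕ) : Finset (ℕ × ℕ) :=
  (RT N y0 y1).filter fun p => (t p.1 p.2 = true ↔ (p.2 + p.1) % 2 = r)

/-- the level of the dual diagonal of a tile -/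
noncomputable def lvT (N M : ℕ) (t : ℕ → ℕ → Bool) (p : ℕ × ℕ) : ℕ :=
  if (p.2 + p.1) % 2 = 1 then dst N M t (p.2, p.1) else dst N M t (p.2 + 1, p.1)

/-- **a dual arm of each odd level** -/
theorem level_arm (hN : N % 2 = 0) (hM : 0 < M) {y0 y1 : ℕ} (h01 : y0 ≤ y1) (h1 : y1 < 2 * M) {i : ℕ}
    (hi : i % 2 = 1) (hiW : i < Wn N M t) :
    Arm 1 0 N y0 y1 ((colT t 1 N y0 y1).filter fun p => lvT N M t p = i) := by
  classical
  refine (slab_dual N y0 y1 h01 _).resolve_left ?_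
  rintro ⟨y, y', a1, a2, a3, a4, a5, a6, hc⟩
  have key : ∀ b : ℕ × ℕ, Con 0 (RT N y0 y1 \ ((colT t 1 N y0 y1).filter fun p => lvT N M t p = i)) (0, y) b →
      dst N M t b + 1 ≤ i := by
    intro b hb
    unfold Con at hb
    induction hb with
    | refl => rw [dst_left (by omega) a3]; omega
    | @tail b c _ hs ih =>
      have step : ∀ b c : ℕ × ℕ, DE 0 (RT N y0 y1 \ ((colT t 1 N y0 y1).filter fun p => lvT N M t p = i)) b c →
          (dst N M t b + 1 ≤ i ↔ dst N M t c + 1 ≤ i) := by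
        rintro b c ⟨x, z, hm, hbc⟩
        rw [mem_sdiff, mem_filter, colT, mem_filter, mem_RT] at hm
        simp only at hm
        obtain ⟨⟨⟨m1, m2⟩, m3⟩, m4⟩ := hm
        have hz : z + 1 < 2 * M := by omega
        obtain ⟨⟨s1, s2⟩, ⟨s3, s4⟩, ⟨s5, s6⟩, ⟨s7, s8⟩⟩ := dst_sides (t := t) (M := M) m3 hz
        have p1 := dst_par (t := t) (N := N) (M := M) (a := (x, z)) m3.le (by simp only; omega)
        have p2 := dst_par (t := t) (N := N) (M := M) (a := (x + 1, z)) (by simp only; omega) (by simp only; omega)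
        have p3 := dst_par (t := t) (N := N) (M := M) (a := (x, z + 1)) m3.le (by simp only; omega)
        have p4 := dst_par (t := t) (N := N) (M := M) (a := (x + 1, z + 1)) (by simp only; omega) (by simp only; omega)
        simp only at p1 p2 p3 p4
        have d1 := dst_main (t := t) (M := M) m3 hz
        have d2 := dst_anti (t := t) (M := M) m3 hz
        rcases hbc with ⟨q1, rfl, rfl⟩ | ⟨q1, rfl, rfl⟩
        · -- the main diagonal is primal
          cases htz : t z x with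
          | true => rw [d1 htz]
          | false =>
            have h4 : lvT N M t (z, x) ≠ i := by
              intro hlv
              exact m4 ⟨⟨⟨⟨m1, m2⟩, m3⟩, by rw [htz]; simp only [Bool.false_eq_true, false_iff]; omega⟩, hlv⟩
            unfold lvT at h4
            simp only at h4
            rw [if_neg (by omega)] at h4
            have := d2 htz
            omega
        · cases htz : t z x with
          | false => rw [d2 htz]
          | true =>
            have h4 : lvT N M t (z, x) ≠ i := by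
              intro hlv
              exact m4 ⟨⟨⟨⟨m1, m2⟩, m3⟩, by rw [htz]; simp only [true_iff]; omega⟩, hlv⟩
            unfold lvT at h4
            simp only at h4
            rw [if_pos (by omega)] at h4
            have := d1 htz
            omega
      rcases hs with hs | hs
      · exact (step b c hs).1 ih
      · exact (step c b hs).2 ih
  have h2 := key _ hc
  have h3 := Wn_le_dst (t := t) (N := N) hM (y := y') (by omega) (by omega)
  omega

/-- **(A7a)** `W / 2` pairwise disjoint dual arms in every slab -/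
theorem slab_arms (hN : N % 2 = 0) (hM : 0 < M) (t : ℕ → ℕ → Bool) {y0 y1 : ℕ} (h01 : y0 ≤ y1) (h1 : y1 < 2 * M) :
    ∃ T : Fin (Wn N M t / 2) → Finset (ℕ × ℕ), (∀ k, T k ⊆ colT t 1 N y0 y1) ∧
      (∀ k l, k ≠ l → Disjoint (T k) (T l)) ∧ ∀ k, Arm 1 0 N y0 y1 (T k) := by
  classical
  refine ⟨fun k => (colT t 1 N y0 y1).filter fun p => lvT N M t p = 2 * k + 1, fun k => filter_subset _ _, ?_, ?_⟩
  · intro k l hkl
    rw [Finset.disjoint_left]
    intro p hp hq
    rw [mem_filter] at hp hq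
    apply hkl
    apply Fin.ext
    have := hp.2
    have := hq.2
    omega
  · intro k
    exact level_arm hN hM h01 h1 (by omega) (by have := k.2; omega)

end Lev

end Ann32
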