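import Pool.Agent.Helper32.Ann.Word

/-!
# ANNULUS (A6), potentials of closed words (helper32)

A potential gives an integer to every face, with steps at most one across a strand; faces which continue keep their
value.  `Pot N L r` : there is a potential of the closed word with value `0` at the left wall and `r` at the right wall.
`exists_W` : for every closed word there is a number `W` with `Pot N L r ↔ |r| ≤ W`.
-/

namespace Ann32
open Lt

/-- steps at most one -/
def Lip (f : ℕ → ℤ) : Prop := ∀ x, |f (x + 1) - f x| ≤ 1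

/-- `h` is obtained from `f` by a cup in the face `i` -/
def CC (i : ℕ) (f h : ℕ → ℤ) : Prop := (∀ x ≤ i, h x = f x) ∧ ∀ x, i ≤ x → h (x + 2) = f x

/-- one letter -/
def step : Lt → (ℕ → ℤ) → (ℕ → ℤ) → Prop
  | cup i => CC i
  | cap i => fun f h => CC i h f

/-- a word -/
def Rel : List Lt → (ℕ → ℤ) → (ℕ → ℤ) → Prop
  | [], f, g => f = g
  | a :: L, f, g => ∃ h, Lip h ∧ step a f h ∧ Rel L h g

theorem Rel_append {A B : List Lt} {f g : ℕ → ℤ} (hf : Lip f) :
    Rel (A ++ B) f g ↔ ∃ h, Lip h ∧ Rel A f h ∧ Rel B h g := by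
  induction A generalizing f with
  | nil =>
    constructor
    · exact fun h => ⟨f, hf, rfl, h⟩
    · rintro ⟨h, _, rfl, h2⟩
      exact h2
  | cons a A ih =>
    constructor
    · rintro ⟨h, h1, h2, h3⟩
      obtain ⟨k, h4, h5, h6⟩ := (ih h1).1 h3
      exact ⟨k, h4, ⟨h, h1, h2, h5⟩, h6⟩
    · rintro ⟨k, h4, ⟨h, h1, h2, h5⟩, h6⟩
      exact ⟨h, h1, h2, (ih h1).2 ⟨k, h4, h5, h6⟩⟩

/-- closed words -/
def Pot (N : ℕ) (L : List Lt) (r : ℤ) : Prop :=
  ∃ f, Lip f ∧ (∀ x, N ≤ x → f x = r) ∧ f 0 = 0 ∧ Rel L f f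

/-! ### the relation `CC` -/

theorem CC.zero {i : ℕ} {f h : ℕ → ℤ} (H : CC i f h) : h 0 = f 0 := H.1 0 (Nat.zero_le _)

theorem CC.wall {i N : ℕ} {f h : ℕ → ℤ} {r : ℤ} (H : CC i f h) (hi : i ≤ N) :
    (∀ x, N ≤ x → f x = r) ↔ ∀ x, N + 2 ≤ x → h x = r := by
  constructor
  · intro h1 x hx
    obtain ⟨y, rfl⟩ : ∃ y, x = y + 2 := ⟨x - 2, by omega⟩
    rw [H.2 y (by omega), h1 y (by omega)]
  · intro h1 x hx
    rw [← H.2 x (by omega), h1 _ (by omega)]

theorem CC.inj {i : ℕ} {f g h : ℕ → ℤ} (H : CC i f h) (H' : CC i g h) : f = g := by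
  funext x
  rcases le_total x i with hx | hx
  · rw [← H.1 x hx, H'.1 x hx]
  · rw [← H.2 x hx, H'.2 x hx]

/-- a cup with the value `t` in the new face -/
def insF (i : ℕ) (t : ℤ) (f : ℕ → ℤ) : ℕ → ℤ := fun x => if x ≤ i then f x else if x = i + 1 then t else f (x - 2)

theorem insF_CC (i : ℕ) (t : ℤ) (f : ℕ → ℤ) : CC i f (insF i t f) := by
  constructor
  · intro x hx
    unfold insF
    rw [if_pos hx]
  · intro x hx
    unfold insF
    rw [if_neg (by omega), if_neg (by omega)]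
    rfl

theorem insF_Lip {i : ℕ} {t : ℤ} {f : ℕ → ℤ} (hf : Lip f) (ht : |t - f i| ≤ 1) : Lip (insF i t f) := by
  intro x
  unfold insF
  rcases Nat.lt_trichotomy x i with hx | hx | hx
  · rw [if_pos (by omega), if_pos (by omega)]
    exact hf x
  · subst hx
    rw [if_neg (by omega), if_pos rfl, if_pos le_rfl]
    exact ht
  · rcases Nat.eq_or_lt_of_le (Nat.succ_le_of_lt hx) with hx' | hx'
    · obtain rfl : x = i + 1 := hx'.symm
      rw [if_neg (by omega), if_neg (by omega), if_neg (by omega), if_pos rfl, abs_sub_comm]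
      have e : i + 1 + 1 - 2 = i := by omega
      rw [e]
      exact ht
    · rw [if_neg (by omega), if_neg (by omega), if_neg (by omega), if_neg (by omega)]
      have e : x + 1 - 2 = x - 2 + 1 := by omega
      rw [e]
      exact hf _

/-- removing two faces -/
def delF (i : ℕ) (f : ℕ → ℤ) : ℕ → ℤ := fun x => if x ≤ i then f x else f (x + 2)

theorem delF_CC {i : ℕ} {f : ℕ → ℤ} (h : f i = f (i + 2)) : CC i (delF i f) f := by
  constructor
  · intro x hx
    unfold delF
    rw [if_pos hx]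
  · intro x hx
    unfold delF
    rcases Nat.eq_or_lt_of_le hx with rfl | hx'
    · rw [if_pos le_rfl, h]
    · rw [if_neg (by omega)]

theorem delF_Lip {i : ℕ} {f : ℕ → ℤ} (hf : Lip f) (h : f i = f (i + 2)) : Lip (delF i f) := by
  intro x
  unfold delF
  rcases Nat.lt_trichotomy x i with hx | hx | hx
  · rw [if_pos (by omega), if_pos (by omega)]
    exact hf x
  · subst hx
    rw [if_neg (by omega), if_pos le_rfl, h]
    exact hf (x + 2)
  · rw [if_neg (by omega), if_neg (by omega)]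
    exact hf (x + 2)

/-! ### moves -/

theorem Pot_rot (N : ℕ) (a : Lt) (L : List Lt) (r : ℤ) (ho : a.ok N) :
    Pot N (a :: L) r ↔ Pot (a.sz N) (L ++ [a]) r := by
  constructor
  · rintro ⟨f, h1, h2, h3, h, h4, h5, h6⟩
    refine ⟨h, h4, ?_, ?_, (Rel_append h4).2 ⟨f, h1, h6, h, h4, h5, rfl⟩⟩
    · cases a with
      | cup i =>
        have h7 : CC i f h := h5
        exact (h7.wall ho).1 h2
      | cap i =>
        have h7 : CC i h f := h5
        have ho' : i + 2 ≤ N := ho
        show ∀ x, N - 2 ≤ x → h x = r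
        refine (h7.wall (by omega)).2 ?_
        rw [show N - 2 + 2 = N by omega]
        exact h2
    · cases a with
      | cup i =>
        have h7 : CC i f h := h5
        rw [h7.zero, h3]
      | cap i =>
        have h7 : CC i h f := h5
        rw [← h7.zero, h3]
  · rintro ⟨h, h4, h2, h3, hR⟩
    obtain ⟨f, h1, h6, h', h4', h5, h7⟩ := (Rel_append h4).1 hR
    subst h7
    refine ⟨f, h1, ?_, ?_, h', h4', h5, h6⟩
    · cases a with
      | cup i =>
        have h7 : CC i f h' := h5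
        exact (h7.wall ho).2 h2
      | cap i =>
        have h7 : CC i h' f := h5
        have ho' : i + 2 ≤ N := ho
        have h8 := (h7.wall (N := N - 2) (r := r) (by omega)).1 h2
        rw [show N - 2 + 2 = N by omega] at h8
        exact h8
    · cases a with
      | cup i =>
        have h7 : CC i f h' := h5
        rw [← h7.zero, h3]
      | cap i =>
        have h7 : CC i h' f := h5
        rw [h7.zero, h3]

theorem Rel_c0 (i : ℕ) (L : List Lt) {f g : ℕ → ℤ} (hf : Lip f) : Rel (cup i :: cap i :: L) f g ↔ Rel L f g := by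
  constructor
  · rintro ⟨h, _, h2, k, _, h4, h5⟩
    have e : f = k := CC.inj h2 h4
    rw [e]
    exact h5
  · intro hR
    have h1 := insF_CC i (f i) f
    exact ⟨insF i (f i) f, insF_Lip hf (by simp), h1, f, hf, h1, hR⟩

theorem CC_succ_aux {i : ℕ} {f g h : ℕ → ℤ} (H : CC (i + 1) f h) (H' : CC i g h) : f = g := by
  funext x
  rcases Nat.lt_or_ge i x with hx | hx
  · rw [← H.2 x (by omega), H'.2 x (by omega)]
  · rw [← H.1 x (by omega), H'.1 x hx]

theorem CC_succ_ins (i : ℕ) (f : ℕ → ℤ) : CC (i + 1) f (insF i (f (i + 1)) f) := by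
  constructor
  · intro x hx
    unfold insF
    rcases Nat.eq_or_lt_of_le hx with rfl | hx'
    · rw [if_neg (by omega), if_pos rfl]
    · rw [if_pos (by omega)]
  · intro x hx
    exact (insF_CC i (f (i + 1)) f).2 x (by omega)

theorem Rel_c1 (i : ℕ) (L : List Lt) {f g : ℕ → ℤ} (hf : Lip f) :
    Rel (cup (i + 1) :: cap i :: L) f g ↔ Rel L f g := by
  constructor
  · rintro ⟨h, _, h2, k, _, h4, h5⟩
    have e : f = k := CC_succ_aux h2 h4
    rw [e]
    exact h5
  · intro hR
    exact ⟨insF i (f (i + 1)) f, insF_Lip hf (hf i), CC_succ_ins i f, f, hf, insF_CC i _ f, hR⟩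

theorem Rel_c2 (i : ℕ) (L : List Lt) {f g : ℕ → ℤ} (hf : Lip f) :
    Rel (cup i :: cap (i + 1) :: L) f g ↔ Rel L f g := by
  constructor
  · rintro ⟨h, _, h2, k, _, h4, h5⟩
    have e : k = f := CC_succ_aux h4 h2
    rw [← e]
    exact h5
  · intro hR
    exact ⟨insF i (f (i + 1)) f, insF_Lip hf (hf i), insF_CC i _ f, f, hf, CC_succ_ins i f, hR⟩

/-- the commutation of a cup and a cap, for potentials -/
theorem CC_comm {i j : ℕ} (hij : i ≤ j) {f g : ℕ → ℤ} (hf : Lip f) (hg : Lip g) :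
    (∃ h, Lip h ∧ CC (j + 2) f h ∧ CC i g h) ↔ ∃ h, Lip h ∧ CC i h f ∧ CC j h g := by
  constructor
  · rintro ⟨h, _, h1, h2⟩
    have e : f i = f (i + 2) := by
      rw [← h1.1 i (by omega), ← h1.1 (i + 2) (by omega), h2.1 i le_rfl, h2.2 i le_rfl]
    refine ⟨delF i f, delF_Lip hf e, delF_CC e, ?_, ?_⟩
    · intro x hx
      unfold delF
      rcases le_or_gt x i with hx' | hx'
      · rw [if_pos hx', ← h2.1 x hx', h1.1 x (by omega)]
      · rw [if_neg (by omega), ← h2.2 x (by omega), h1.1 (x + 2) (by omega)]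
    · intro x hx
      have e1 : g (x + 2) = h (x + 2 + 2) := (h2.2 (x + 2) (by omega)).symm
      have e2 : h (x + 2 + 2) = f (x + 2) := h1.2 (x + 2) (by omega)
      rw [e1, e2]
      unfold delF
      rcases Nat.eq_or_lt_of_le (hij.trans hx) with rfl | hx'
      · rw [if_pos le_rfl, e]
      · rw [if_neg (by omega)]
  · rintro ⟨h, _, h1, h2⟩
    have e : g i = f i := by rw [h2.1 i hij, h1.1 i le_rfl]
    refine ⟨insF i (f (i + 1)) g, insF_Lip hg (by rw [e]; exact hf i), ?_, insF_CC i _ g⟩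
    constructor
    · intro x hx
      unfold insF
      rcases Nat.lt_trichotomy x (i + 1) with hx' | hx' | hx'
      · rw [if_pos (by omega), h2.1 x (by omega), h1.1 x (by omega)]
      · rw [if_neg (by omega), if_pos hx', hx']
      · obtain ⟨y, rfl⟩ : ∃ y, x = y + 2 := ⟨x - 2, by omega⟩
        rw [if_neg (by omega), if_neg (by omega), show y + 2 - 2 = y by omega, h2.1 y (by omega),
          h1.2 y (by omega)]
    · intro x hx
      obtain ⟨y, rfl⟩ : ∃ y, x = y + 2 := ⟨x - 2, by omega⟩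
      unfold insF
      rw [if_neg (by omega), if_neg (by omega), show y + 2 + 2 - 2 = y + 2 by omega, h2.2 y (by omega),
        ← h1.2 y (by omega)]

theorem Rel_m1 {i j : ℕ} (hij : i ≤ j) (L : List Lt) {f g : ℕ → ℤ} (hf : Lip f) :
    Rel (cup (j + 2) :: cap i :: L) f g ↔ Rel (cap i :: cup j :: L) f g := by
  constructor
  · rintro ⟨h, h1, h2, k, h3, h4, h5⟩
    obtain ⟨h', h6, h7, h8⟩ := (CC_comm hij hf h3).1 ⟨h, h1, h2, h4⟩
    exact ⟨h', h6, h7, k, h3, h8, h5⟩
  · rintro ⟨h, h1, h2, k, h3, h4, h5⟩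
    obtain ⟨h', h6, h7, h8⟩ := (CC_comm hij hf h3).2 ⟨h, h1, h2, h4⟩
    exact ⟨h', h6, h7, k, h3, h8, h5⟩

theorem Rel_m2 {i j : ℕ} (hij : i ≤ j) (L : List Lt) {f g : ℕ → ℤ} (hf : Lip f) :
    Rel (cup i :: cap (j + 2) :: L) f g ↔ Rel (cap j :: cup i :: L) f g := by
  constructor
  · rintro ⟨h, h1, h2, k, h3, h4, h5⟩
    obtain ⟨h', h6, h7, h8⟩ := (CC_comm hij h3 hf).1 ⟨h, h1, h4, h2⟩
    exact ⟨h', h6, h8, k, h3, h7, h5⟩
  · rintro ⟨h, h1, h2, k, h3, h4, h5⟩
    obtain ⟨h', h6, h7, h8⟩ := (CC_comm hij h3 hf).2 ⟨h, h1, h4, h2⟩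
    exact ⟨h', h6, h8, k, h3, h7, h5⟩

/-- the identity with `W` strands -/
theorem Pot_nil (W : ℕ) (r : ℤ) : Pot W [] r ↔ |r| ≤ W := by
  constructor
  · rintro ⟨f, h1, h2, h3, _⟩
    have h4 : ∀ n : ℕ, |f n| ≤ n := by
      intro n
      induction n with
      | zero => rw [h3]; simp
      | succ n ih =>
        have h5 := h1 n
        have h6 : |f (n + 1)| ≤ |f (n + 1) - f n| + |f n| := by
          have := abs_add_le (f (n + 1) - f n) (f n)
          rwa [sub_add_cancel] at this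
        push_cast
        linarith
    rw [← h2 W le_rfl]
    exact h4 W
  · intro h
    rcases le_total 0 r with hr | hr
    · rw [abs_of_nonneg hr] at h
      refine ⟨fun x => min (x : ℤ) r, ?_, ?_, ?_, rfl⟩
      · intro x
        simp only
        push_cast
        rw [abs_le]
        omega
      · intro x hx
        have : (W : ℤ) ≤ x := by exact_mod_cast hx
        exact min_eq_right (by linarith)
      · simp only [Nat.cast_zero]
        exact min_eq_left hr
    · rw [abs_of_nonpos hr] at h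
      refine ⟨fun x => max (-(x : ℤ)) r, ?_, ?_, ?_, rfl⟩
      · intro x
        simp only
        push_cast
        rw [abs_le]
        omega
      · intro x hx
        have : (W : ℤ) ≤ x := by exact_mod_cast hx
        exact max_eq_right (by linarith)
      · simp only [Nat.cast_zero, neg_zero]
        exact max_eq_left hr

theorem Pot_congr {N : ℕ} {L L' : List Lt} {r : ℤ} (h : ∀ f, Lip f → (Rel L f f ↔ Rel L' f f)) :
    Pot N L r ↔ Pot N L' r := by
  constructor
  · rintro ⟨f, h1, h2, h3, h4⟩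
    exact ⟨f, h1, h2, h3, (h f h1).1 h4⟩
  · rintro ⟨f, h1, h2, h3, h4⟩
    exact ⟨f, h1, h2, h3, (h f h1).2 h4⟩

/-- the number of non contractible loops -/
theorem exists_W {N : ℕ} {L : List Lt} (h : Cl N L) : ∃ W : ℕ, ∀ r, Pot N L r ↔ |r| ≤ W := by
  refine Cl.induction (P := fun N L => ∃ W : ℕ, ∀ r, Pot N L r ↔ |r| ≤ W) ?_ ?_ ?_ ?_ ?_ ?_ ?_ h
  · exact fun N => ⟨N, fun r => Pot_nil N r⟩
  · rintro N a L hcl ⟨W, hW⟩
    exact ⟨W, fun r => (Pot_rot N a L r hcl.1.1).trans (hW r)⟩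
  · rintro N i L _ ⟨W, hW⟩
    exact ⟨W, fun r => (Pot_congr fun f hf => Rel_c0 i L hf).trans (hW r)⟩
  · rintro N i L _ ⟨W, hW⟩
    exact ⟨W, fun r => (Pot_congr fun f hf => Rel_c1 i L hf).trans (hW r)⟩
  · rintro N i L _ ⟨W, hW⟩
    exact ⟨W, fun r => (Pot_congr fun f hf => Rel_c2 i L hf).trans (hW r)⟩
  · rintro N i j L hij _ ⟨W, hW⟩
    exact ⟨W, fun r => (Pot_congr fun f hf => Rel_m1 hij L hf).trans (hW r)⟩
  · rintro N i j L hij _ ⟨W, hW⟩
    exact ⟨W, fun r => (Pot_congr fun f hf => Rel_m2 hij L hf).trans (hW r)⟩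

end Ann32
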