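import Pool.Agent.Helper32.Ann.Pot

/-!
# ANNULUS (A6), the word of a double row and its potentials (helper32)
-/

namespace Ann32
open Lt

/-- the tiles `0, ..., n-1` of a lower row (from left to right) -/
def lowW (t : ℕ → Bool) : ℕ → List Lt
  | 0 => []
  | n + 1 => lowW t n ++ (if t n then [] else [cap (n + 1), cup (n + 1)])

/-- the tiles `n-1, ..., 0` of an upper row (from right to left) -/
def uppW (t : ℕ → Bool) : ℕ → List Lt
  | 0 => []
  | n + 1 => (if t n then [cap (n + 1), cup (n + 1)] else []) ++ uppW t n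

/-- a double row -/
def drW (N : ℕ) (t t' : ℕ → Bool) : List Lt := cup 0 :: (lowW t N ++ (uppW t' N ++ [cap 0]))

theorem Rel_e {s : ℕ} {f h : ℕ → ℤ} (hf : Lip f) :
    Rel [cap s, cup s] f h ↔ Lip h ∧ f s = f (s + 2) ∧ ∀ x, x ≠ s + 1 → h x = f x := by
  constructor
  · rintro ⟨k, _, h2, k', h3, h4, h5⟩
    have h2' : CC s k f := h2
    have h4' : CC s k k' := h4
    have h5' : k' = h := h5
    subst h5'
    refine ⟨h3, ?_, ?_⟩
    · rw [h2'.1 s le_rfl, h2'.2 s le_rfl]
    · intro x hx
      rcases Nat.lt_or_ge x (s + 1) with hx' | hx'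
      · rw [h2'.1 x (by omega), h4'.1 x (by omega)]
      · obtain ⟨y, rfl⟩ : ∃ y, x = y + 2 := ⟨x - 2, by omega⟩
        rw [h2'.2 y (by omega), h4'.2 y (by omega)]
  · rintro ⟨h1, h2, h3⟩
    refine ⟨delF s f, delF_Lip hf h2, delF_CC h2, h, h1, ?_, rfl⟩
    show CC s (delF s f) h
    have hd := delF_CC h2
    constructor
    · intro x hx
      rw [h3 x (by omega), hd.1 x hx]
    · intro x hx
      rw [h3 (x + 2) (by omega), hd.2 x hx]

theorem Lip.congr_abs {f : ℕ → ℤ} (hf : Lip f) (x : ℕ) : -1 ≤ f (x + 1) - f x ∧ f (x + 1) - f x ≤ 1 :=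
  abs_le.1 (hf x)

theorem Rel_low {t : ℕ → Bool} : ∀ {n : ℕ} {f h : ℕ → ℤ}, Lip f → Lip h →
    (Rel (lowW t n) f h ↔ (∀ x, x ≤ 1 → h x = f x) ∧ (∀ x, n + 2 ≤ x → h x = f x) ∧
      (∀ x, x < n → if t x then h (x + 2) = f (x + 2) else h (x + 1) = f (x + 3)) ∧
      (∀ x, x < n → |f (x + 3) - h (x + 2)| ≤ 1))
  | 0, f, h, hf, hh => by
    constructor
    · intro h0
      have h0' : f = h := h0
      subst h0'
      exact ⟨fun _ _ => rfl, fun _ _ => rfl, fun x hx => absurd hx (Nat.not_lt_zero _),
        fun x hx => absurd hx (Nat.not_lt_zero _)⟩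
    · rintro ⟨h1, h2, _, _⟩
      show f = h
      funext x
      rcases Nat.lt_or_ge x 2 with hx | hx
      · exact (h1 x (by omega)).symm
      · exact (h2 x (by omega)).symm
  | n + 1, f, h, hf, hh => by
    show Rel (lowW t n ++ (if t n then [] else [cap (n + 1), cup (n + 1)])) f h ↔ _
    rw [Rel_append hf]
    constructor
    · rintro ⟨k, hk, h1, h2⟩
      obtain ⟨a1, a2, a3, a4⟩ := (Rel_low hf hk).1 h1
      -- the last tile
      have hlast : (∀ x, x ≠ n + 2 → h x = k x) ∧ (if t n then h (n + 2) = k (n + 2) else k (n + 1) = k (n + 3)) := by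
        by_cases ht : t n = true
        · rw [if_pos ht] at h2
          have h2' : k = h := h2
          subst h2'
          exact ⟨fun _ _ => rfl, by rw [if_pos ht]⟩
        · rw [if_neg ht] at h2
          rw [Rel_e hk] at h2
          rw [if_neg ht]
          exact ⟨h2.2.2, h2.2.1⟩
      obtain ⟨b1, b2⟩ := hlast
      refine ⟨?_, ?_, ?_, ?_⟩
      · intro x hx
        rw [b1 x (by omega), a1 x hx]
      · intro x hx
        rw [b1 x (by omega), a2 x (by omega)]
      · intro x hx
        rcases Nat.lt_succ_iff_lt_or_eq.1 hx with hx' | rfl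
        · have := a3 x hx'
          by_cases ht : t x = true
          · rw [if_pos ht] at this ⊢
            rw [b1 (x + 2) (by omega), this]
          · rw [if_neg ht] at this ⊢
            rw [b1 (x + 1) (by omega), this]
        · by_cases ht : t x = true
          · rw [if_pos ht] at b2 ⊢
            rw [b2, a2 (x + 2) (by omega)]
          · rw [if_neg ht] at b2 ⊢
            rw [b1 (x + 1) (by omega), b2, a2 (x + 3) (by omega)]
      · intro x hx
        rcases Nat.lt_succ_iff_lt_or_eq.1 hx with hx' | rfl
        · rw [b1 (x + 2) (by omega)]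
          exact a4 x hx'
        · rw [← a2 (x + 3) (by omega), ← b1 (x + 3) (by omega)]
          exact hh (x + 2)
    · rintro ⟨a1, a2, a3, a4⟩
      -- the intermediate potential
      set k : ℕ → ℤ := fun x => if x ≤ n + 1 then h x else f x with hkdef
      have k1 : ∀ x, x ≤ n + 1 → k x = h x := fun x hx => if_pos hx
      have k2 : ∀ x, n + 2 ≤ x → k x = f x := fun x hx => if_neg (by omega)
      have hk : Lip k := by
        intro x
        rcases Nat.lt_trichotomy x (n + 1) with hx | hx | hx
        · rw [k1 x (by omega), k1 (x + 1) (by omega)]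
          exact hh x
        · subst hx
          rw [k1 (n + 1) le_rfl, k2 (n + 1 + 1) (by omega)]
          cases n with
          | zero =>
            rw [a1 (0 + 1) (by omega)]
            exact hf 1
          | succ n =>
            exact a4 n (by omega)
        · rw [k2 x (by omega), k2 (x + 1) (by omega)]
          exact hf x
      refine ⟨k, hk, (Rel_low hf hk).2 ⟨?_, ?_, ?_, ?_⟩, ?_⟩
      · intro x hx
        rw [k1 x (by omega), a1 x hx]
      · intro x hx
        exact k2 x hx
      · intro x hx
        have := a3 x (by omega)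
        by_cases ht : t x = true
        · rw [if_pos ht] at this ⊢
          rcases Nat.lt_or_ge (x + 2) (n + 2) with hx' | hx'
          · rw [k1 (x + 2) (by omega), this]
          · rw [k2 (x + 2) hx']
        · rw [if_neg ht] at this ⊢
          rw [k1 (x + 1) (by omega), this]
      · intro x hx
        rw [k1 (x + 2) (by omega)]
        exact a4 x (by omega)
      · have := a3 n (by omega)
        have hne : ∀ x, x ≠ n + 2 → h x = k x := by
          intro x hx
          rcases Nat.lt_or_ge x (n + 2) with hx' | hx'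
          · rw [k1 x (by omega)]
          · rw [k2 x hx', a2 x (by omega)]
        by_cases ht : t n = true
        · rw [if_pos ht] at this ⊢
          show k = h
          funext x
          by_cases hx : x = n + 2
          · subst hx
            rw [k2 _ le_rfl, this]
          · exact (hne x hx).symm
        · rw [if_neg ht] at this ⊢
          rw [Rel_e hk]
          refine ⟨hh, ?_, hne⟩
          rw [k1 (n + 1) le_rfl, k2 (n + 1 + 2) (by omega)]
          exact this

theorem Rel_upp {t : ℕ → Bool} : ∀ {n : ℕ} {h u : ℕ → ℤ}, Lip h → Lip u →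
    (Rel (uppW t n) h u ↔ (∀ x, x ≤ 1 → u x = h x) ∧ (∀ x, n + 2 ≤ x → u x = h x) ∧
      (∀ x, x < n → if t x then h (x + 1) = u (x + 3) else u (x + 2) = h (x + 2)) ∧
      (∀ x, x < n → |u (x + 2) - h (x + 1)| ≤ 1))
  | 0, f, h, hf, hh => by
    constructor
    · intro h0
      have h0' : f = h := h0
      subst h0'
      exact ⟨fun _ _ => rfl, fun _ _ => rfl, fun x hx => absurd hx (Nat.not_lt_zero _),
        fun x hx => absurd hx (Nat.not_lt_zero _)⟩
    · rintro ⟨h1, h2, _, _⟩
      show f = h
      funext x
      rcases Nat.lt_or_ge x 2 with hx | hx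
      · exact (h1 x (by omega)).symm
      · exact (h2 x (by omega)).symm
  | n + 1, h, u, hh, hu => by
    show Rel ((if t n then [cap (n + 1), cup (n + 1)] else []) ++ uppW t n) h u ↔ _
    rw [Rel_append hh]
    constructor
    · rintro ⟨k, hk, h1, h2⟩
      obtain ⟨a1, a2, a3, a4⟩ := (Rel_upp hk hu).1 h2
      have hfirst : (∀ x, x ≠ n + 2 → k x = h x) ∧
          (if t n then h (n + 1) = h (n + 3) else k (n + 2) = h (n + 2)) := by
        by_cases ht : t n = true
        · rw [if_pos ht] at h1
          rw [Rel_e hh] at h1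
          rw [if_pos ht]
          exact ⟨h1.2.2, h1.2.1⟩
        · rw [if_neg ht] at h1
          have h1' : h = k := h1
          subst h1'
          exact ⟨fun _ _ => rfl, by rw [if_neg ht]⟩
      obtain ⟨b1, b2⟩ := hfirst
      refine ⟨?_, ?_, ?_, ?_⟩
      · intro x hx
        rw [a1 x hx, b1 x (by omega)]
      · intro x hx
        rw [a2 x (by omega), b1 x (by omega)]
      · intro x hx
        rcases Nat.lt_succ_iff_lt_or_eq.1 hx with hx' | rfl
        · have := a3 x hx'
          by_cases ht : t x = true
          · rw [if_pos ht] at this ⊢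
            rw [← b1 (x + 1) (by omega), this]
          · rw [if_neg ht] at this ⊢
            rw [this, b1 (x + 2) (by omega)]
        · by_cases ht : t x = true
          · rw [if_pos ht] at b2 ⊢
            rw [b2, a2 (x + 3) (by omega), b1 (x + 3) (by omega)]
          · rw [if_neg ht] at b2 ⊢
            rw [a2 (x + 2) (by omega), b2]
      · intro x hx
        rcases Nat.lt_succ_iff_lt_or_eq.1 hx with hx' | rfl
        · rw [← b1 (x + 1) (by omega)]
          exact a4 x hx'
        · rw [a2 (x + 2) (by omega), ← b1 (x + 1) (by omega)]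
          exact hk (x + 1)
    · rintro ⟨a1, a2, a3, a4⟩
      set k : ℕ → ℤ := fun x => if x ≤ n + 1 then h x else u x with hkdef
      have k1 : ∀ x, x ≤ n + 1 → k x = h x := fun x hx => if_pos hx
      have k2 : ∀ x, n + 2 ≤ x → k x = u x := fun x hx => if_neg (by omega)
      have hk : Lip k := by
        intro x
        rcases Nat.lt_trichotomy x (n + 1) with hx | hx | hx
        · rw [k1 x (by omega), k1 (x + 1) (by omega)]
          exact hh x
        · subst hx
          rw [k1 (n + 1) le_rfl, k2 (n + 1 + 1) (by omega)]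
          exact a4 n (by omega)
        · rw [k2 x (by omega), k2 (x + 1) (by omega)]
          exact hu x
      have hne : ∀ x, x ≠ n + 2 → k x = h x := by
        intro x hx
        rcases Nat.lt_or_ge x (n + 2) with hx' | hx'
        · rw [k1 x (by omega)]
        · rw [k2 x hx', a2 x (by omega)]
      refine ⟨k, hk, ?_, (Rel_upp hk hu).2 ⟨?_, ?_, ?_, ?_⟩⟩
      · have := a3 n (by omega)
        by_cases ht : t n = true
        · rw [if_pos ht] at this ⊢
          rw [Rel_e hh]
          refine ⟨hk, ?_, hne⟩
          rw [this, a2 (n + 3) (by omega)]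
        · rw [if_neg ht] at this ⊢
          show h = k
          funext x
          by_cases hx : x = n + 2
          · subst hx
            rw [k2 _ le_rfl, this]
          · exact (hne x hx).symm
      · intro x hx
        rw [k1 x (by omega), a1 x hx]
      · intro x hx
        rw [k2 x hx]
      · intro x hx
        have := a3 x (by omega)
        by_cases ht : t x = true
        · rw [if_pos ht] at this ⊢
          rw [k1 (x + 1) (by omega), this]
        · rw [if_neg ht] at this ⊢
          rcases Nat.lt_or_ge (x + 2) (n + 2) with hx' | hx'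
          · rw [k1 (x + 2) (by omega), this]
          · rw [k2 (x + 2) hx']
      · intro x hx
        rw [k1 (x + 1) (by omega)]
        exact a4 x (by omega)

/-- **the potentials of a double row** -/
theorem Rel_dr {N : ℕ} {t t' : ℕ → Bool} {f g : ℕ → ℤ} (hf : Lip f) (hg : Lip g) :
    Rel (drW N t t') f g ↔ g 0 = f 0 ∧ (∀ x, N ≤ x → g x = f x) ∧ ∃ d : ℕ → ℤ,
      (∀ x, x < N → |d (x + 1) - d x| ≤ 1) ∧ (∀ x, x ≤ N → |d x - f x| ≤ 1 ∧ |g x - d x| ≤ 1) ∧
      (∀ x, x < N → if t x then d (x + 1) = f x else d x = f (x + 1)) ∧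
      (∀ x, x < N → if t' x then g (x + 1) = d x else g x = d (x + 1)) := by
  constructor
  · rintro ⟨g0, hg0, c1, hR⟩
    obtain ⟨h, hh, hl, hR2⟩ := (Rel_append hg0).1 hR
    obtain ⟨u, hu, hup, v, hv, c2, c3⟩ := (Rel_append hh).1 hR2
    have c1' : CC 0 f g0 := c1
    have c2' : CC 0 v u := c2
    have c3' : v = g := c3
    subst c3'
    obtain ⟨l1, l2, l3, l4⟩ := (Rel_low hg0 hh).1 hl
    obtain ⟨u1, u2, u3, u4⟩ := (Rel_upp hh hu).1 hup
    have vx : ∀ x, v x = u (x + 2) := fun x => (c2'.2 x (Nat.zero_le _)).symm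
    have fx : ∀ x, f x = g0 (x + 2) := fun x => (c1'.2 x (Nat.zero_le _)).symm
    have v0 : v 0 = f 0 := by
      rw [← c2'.1 0 le_rfl, u1 0 (by omega), l1 0 (by omega), c1'.1 0 le_rfl]
    refine ⟨v0, ?_, fun x => h (x + 1), ?_, ?_, ?_, ?_⟩
    · intro x hx
      rw [vx, fx, u2 (x + 2) (by omega), l2 (x + 2) (by omega)]
    · intro x _
      exact hh (x + 1)
    · intro x hx
      constructor
      · show |h (x + 1) - f x| ≤ 1
        cases x with
        | zero =>
          rw [← c1'.1 0 le_rfl, ← l1 0 (by omega)]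
          exact hh 0
        | succ x =>
          rw [fx (x + 1), abs_sub_comm]
          exact l4 x (by omega)
      · show |v x - h (x + 1)| ≤ 1
        rw [vx]
        rcases Nat.eq_or_lt_of_le hx with rfl | hx'
        · rw [u2 (x + 2) le_rfl]
          exact hh (x + 1)
        · exact u4 x hx'
    · intro x hx
      have := l3 x hx
      by_cases ht : t x = true
      · rw [if_pos ht] at this ⊢
        show h (x + 1 + 1) = f x
        rw [fx]
        exact this
      · rw [if_neg ht] at this ⊢
        show h (x + 1) = f (x + 1)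
        rw [fx]
        exact this
    · intro x hx
      have := u3 x hx
      by_cases ht : t' x = true
      · rw [if_pos ht] at this ⊢
        show v (x + 1) = h (x + 1)
        rw [vx]
        exact this.symm
      · rw [if_neg ht] at this ⊢
        show v x = h (x + 1 + 1)
        rw [vx]
        exact this
  · rintro ⟨h0, hN, d, d1, d2, d3, d4⟩
    have hg0 : Lip (insF 0 (d 0) f) := insF_Lip hf (d2 0 (Nat.zero_le _)).1
    have hu : Lip (insF 0 (d 0) g) := insF_Lip hg (by
      rw [abs_sub_comm]; exact (d2 0 (Nat.zero_le _)).2)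
    have cf := insF_CC 0 (d 0) f
    have cg := insF_CC 0 (d 0) g
    set g0 := insF 0 (d 0) f with hg0d
    set u := insF 0 (d 0) g with hud
    have g01 : g0 1 = d 0 := rfl
    have u1 : u 1 = d 0 := rfl
    have g0x : ∀ x, g0 (x + 2) = f x := fun x => cf.2 x (Nat.zero_le _)
    have ux : ∀ x, u (x + 2) = g x := fun x => cg.2 x (Nat.zero_le _)
    set h : ℕ → ℤ := fun x => if x = 0 then f 0 else if x ≤ N + 1 then d (x - 1) else f (x - 2) with hhd
    have h00 : h 0 = f 0 := if_pos rfl
    have hx1 : ∀ x, x ≤ N → h (x + 1) = d x := by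
      intro x hx
      show (if x + 1 = 0 then f 0 else if x + 1 ≤ N + 1 then d (x + 1 - 1) else f (x + 1 - 2)) = d x
      rw [if_neg (by omega), if_pos (by omega)]
      rfl
    have hx2 : ∀ x, N ≤ x → h (x + 2) = f x := by
      intro x hx
      show (if x + 2 = 0 then f 0 else if x + 2 ≤ N + 1 then d (x + 2 - 1) else f (x + 2 - 2)) = f x
      rw [if_neg (by omega), if_neg (by omega)]
      rfl
    have hh : Lip h := by
      intro x
      cases x with
      | zero =>
        rw [hx1 0 (Nat.zero_le _), h00]
        exact (d2 0 (Nat.zero_le _)).1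
      | succ x =>
        rcases Nat.lt_trichotomy x N with hx | hx | hx
        · rw [hx1 x hx.le, hx1 (x + 1) hx]
          exact d1 x hx
        · subst hx
          rw [hx1 x le_rfl, hx2 x le_rfl, abs_sub_comm]
          exact (d2 x le_rfl).1
        · obtain ⟨y, rfl⟩ : ∃ y, x = y + 1 := ⟨x - 1, by omega⟩
          rw [hx2 y (by omega), hx2 (y + 1) (by omega)]
          exact hf y
    refine ⟨g0, hg0, cf, (Rel_append hg0).2 ⟨h, hh, (Rel_low hg0 hh).2 ⟨?_, ?_, ?_, ?_⟩,
      (Rel_append hh).2 ⟨u, hu, (Rel_upp hh hu).2 ⟨?_, ?_, ?_, ?_⟩, g, hg, cg, rfl⟩⟩⟩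
    · intro x hx
      rcases Nat.eq_zero_or_pos x with rfl | hx'
      · rw [h00]
        exact (cf.1 0 le_rfl).symm
      · obtain rfl : x = 1 := by omega
        rw [hx1 0 (Nat.zero_le _), g01]
    · intro x hx
      obtain ⟨y, rfl⟩ : ∃ y, x = y + 2 := ⟨x - 2, by omega⟩
      rw [hx2 y (by omega), g0x]
    · intro x hx
      have := d3 x hx
      by_cases ht : t x = true
      · rw [if_pos ht] at this ⊢
        rw [g0x, hx1 (x + 1) (by omega), this]
      · rw [if_neg ht] at this ⊢
        show h (x + 1) = g0 (x + 1 + 2)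
        rw [g0x, hx1 x (by omega), this]
    · intro x hx
      show |g0 (x + 1 + 2) - h (x + 1 + 1)| ≤ 1
      rw [g0x, hx1 (x + 1) (by omega), abs_sub_comm]
      exact (d2 (x + 1) (by omega)).1
    · intro x hx
      rcases Nat.eq_zero_or_pos x with rfl | hx'
      · rw [h00, ← h0]
        exact cg.1 0 le_rfl
      · obtain rfl : x = 1 := by omega
        rw [hx1 0 (Nat.zero_le _), u1]
    · intro x hx
      obtain ⟨y, rfl⟩ : ∃ y, x = y + 2 := ⟨x - 2, by omega⟩
      rw [hx2 y (by omega), ux, hN y (by omega)]
    · intro x hx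
      have := d4 x hx
      by_cases ht : t' x = true
      · rw [if_pos ht] at this ⊢
        show h (x + 1) = u (x + 1 + 2)
        rw [ux, hx1 x (by omega), this]
      · rw [if_neg ht] at this ⊢
        rw [ux, hx1 (x + 1) (by omega), this]
    · intro x hx
      rw [ux, hx1 x (by omega)]
      exact (d2 x (by omega)).2

end Ann32
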