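import Pool.Agent.Helper32.Ann.Pot
import Pool.Agent.Helper9.DR.Alg

/-!
# ANNULUS (A6): the trace of a closed word in a tower (helper32)

`tr_{V_N}(word) = dim V_W`, `W` = number of non contractible loops of the closed word.
-/

namespace Ann32
open Lt Pool.Agent.Helper9.DR

/-- a tower with finite dimensional levels -/
structure TrTower (K : Type*) [Field K] (V : Type*) [AddCommGroup V] [Module K V] extends Tower K V where
  far1 : ∀ i j, i ≤ j → k i * c (j + 2) = c j * k i
  far2 : ∀ i j, i ≤ j → k (j + 2) * c i = c i * k j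
  VN : ℕ → Submodule K V
  fin : ∀ N, FiniteDimensional K (VN N)
  c_mem : ∀ N i, i ≤ N → ∀ v ∈ VN N, c i v ∈ VN (N + 2)
  k_mem : ∀ N i, i ≤ N → ∀ v ∈ VN (N + 2), k i v ∈ VN N

variable {K : Type*} [Field K] {V : Type*} [AddCommGroup V] [Module K V]

open Classical in
/-- trace of an endomorphism which preserves `U` -/
noncomputable def trU (U : Submodule K V) (X : Module.End K V) : K :=
  if h : ∀ v ∈ U, X v ∈ U then LinearMap.trace K U (X.restrict h) else 0

theorem trU_of {U : Submodule K V} {X : Module.End K V} (h : ∀ v ∈ U, X v ∈ U) :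
    trU U X = LinearMap.trace K U (X.restrict h) := dif_pos h

/-- cyclicity -/
theorem trU_comm {U U' : Submodule K V} [FiniteDimensional K U] [FiniteDimensional K U'] {X Y : Module.End K V}
    (hX : ∀ v ∈ U', X v ∈ U) (hY : ∀ v ∈ U, Y v ∈ U') : trU U (X * Y) = trU U' (Y * X) := by
  have h1 : ∀ v ∈ U, (X * Y) v ∈ U := fun v hv => hX _ (hY v hv)
  have h2 : ∀ v ∈ U', (Y * X) v ∈ U' := fun v hv => hY _ (hX v hv)
  rw [trU_of h1, trU_of h2]
  have e1 : (X * Y).restrict h1 = (X.restrict hX) ∘ₗ (Y.restrict hY) := rfl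
  have e2 : (Y * X).restrict h2 = (Y.restrict hY) ∘ₗ (X.restrict hX) := rfl
  rw [e1, e2]
  exact LinearMap.trace_comp_comm' _ _

theorem trU_one {U : Submodule K V} [FiniteDimensional K U] : trU U (1 : Module.End K V) = Module.finrank K U := by
  have h1 : ∀ v ∈ U, (1 : Module.End K V) v ∈ U := fun v hv => hv
  rw [trU_of h1]
  have e1 : (1 : Module.End K V).restrict h1 = LinearMap.id := rfl
  rw [e1, LinearMap.trace_id]

theorem trU_add {U : Submodule K V} {X Y : Module.End K V} (hX : ∀ v ∈ U, X v ∈ U) (hY : ∀ v ∈ U, Y v ∈ U) :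
    trU U (X + Y) = trU U X + trU U Y := by
  have h1 : ∀ v ∈ U, (X + Y) v ∈ U := fun v hv => U.add_mem (hX v hv) (hY v hv)
  rw [trU_of h1, trU_of hX, trU_of hY, ← map_add]
  rfl

theorem trU_smul {U : Submodule K V} {X : Module.End K V} (hX : ∀ v ∈ U, X v ∈ U) (r : K) :
    trU U (r • X) = r * trU U X := by
  have h1 : ∀ v ∈ U, (r • X) v ∈ U := fun v hv => U.smul_mem r (hX v hv)
  rw [trU_of h1, trU_of hX, ← smul_eq_mul, ← map_smul]
  rfl

theorem trU_sum {U : Submodule K V} {ι : Type*} (S : Finset ι) {X : ι → Module.End K V}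
    (hX : ∀ i ∈ S, ∀ v ∈ U, X i v ∈ U) : trU U (∑ i ∈ S, X i) = ∑ i ∈ S, trU U (X i) := by
  classical
  induction S using Finset.induction_on with
  | empty =>
    rw [Finset.sum_empty, Finset.sum_empty]
    have h1 : ∀ v ∈ U, (0 : Module.End K V) v ∈ U := fun v _ => U.zero_mem
    rw [trU_of h1]
    have e1 : (0 : Module.End K V).restrict h1 = 0 := rfl
    rw [e1, map_zero]
  | insert i S hi ih =>
    rw [Finset.sum_insert hi, Finset.sum_insert hi]
    have h2 : ∀ v ∈ U, (∑ j ∈ S, X j) v ∈ U := by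
      intro v hv
      rw [LinearMap.sum_apply]
      exact U.sum_mem fun j hj => hX j (Finset.mem_insert_of_mem hj) v hv
    rw [trU_add (hX i (Finset.mem_insert_self _ _)) h2, ih fun j hj => hX j (Finset.mem_insert_of_mem hj)]

namespace TrTower

variable (T : TrTower K V)

/-- the action of a letter -/
def lt : Lt → Module.End K V
  | cup i => T.c i
  | cap i => T.k i

/-- the action of a word, the first letter acts first -/
def act : List Lt → Module.End K V
  | [] => 1
  | a :: L => act L * T.lt a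

theorem act_append (A B : List Lt) : T.act (A ++ B) = T.act B * T.act A := by
  induction A with
  | nil => show T.act B = T.act B * 1; rw [mul_one]
  | cons a A ih =>
    show T.act (A ++ B) * T.lt a = T.act B * (T.act A * T.lt a)
    rw [ih, mul_assoc]

theorem lt_mem {N : ℕ} {a : Lt} (h : a.ok N) {v : V} (hv : v ∈ T.VN N) : T.lt a v ∈ T.VN (a.sz N) := by
  cases a with
  | cup i => exact T.c_mem N i h v hv
  | cap i =>
    have h' : i + 2 ≤ N := h
    show T.k i v ∈ T.VN (N - 2)
    have e : N = (N - 2) + 2 := by omega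
    rw [e] at hv
    exact T.k_mem (N - 2) i (by omega) v hv

theorem act_mem : ∀ {L : List Lt} {N : ℕ}, ok N L → ∀ v ∈ T.VN N, T.act L v ∈ T.VN (sz N L)
  | [], _, _, v, hv => hv
  | _ :: _, _, h, _, hv => act_mem h.2 _ (T.lt_mem h.1 hv)

/-- **the trace of a closed word** -/
theorem trace_word {N : ℕ} {L : List Lt} (h : Cl N L) :
    ∀ W : ℕ, (∀ r, Pot N L r ↔ |r| ≤ W) → trU (T.VN N) (T.act L) = Module.finrank K (T.VN W) := by
  have := T.fin
  refine Cl.induction (P := fun N L => ∀ W : ℕ, (∀ r, Pot N L r ↔ |r| ≤ W) →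
    trU (T.VN N) (T.act L) = Module.finrank K (T.VN W)) ?_ ?_ ?_ ?_ ?_ ?_ ?_ h
  · intro N W hW
    have h1 : N = W := by
      have a1 := (hW (N : ℤ)).1 ((Pot_nil N _).2 (by simp))
      have a2 := (Pot_nil N (W : ℤ)).1 ((hW (W : ℤ)).2 (by simp))
      simp only [Nat.abs_cast, Nat.cast_le] at a1 a2
      omega
    subst h1
    exact trU_one
  · intro N a L hcl ih W hW
    have h1 := ih W (fun r => (Pot_rot N a L r hcl.1.1).symm.trans (hW r))
    rw [← h1, act_append]
    show trU (T.VN N) (T.act L * T.lt a) = trU (T.VN (a.sz N)) ((1 * T.lt a) * T.act L)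
    rw [one_mul]
    refine trU_comm ?_ (fun v hv => T.lt_mem hcl.1.1 hv)
    intro v hv
    have := T.act_mem hcl.1.2 v hv
    have e : sz (a.sz N) L = N := hcl.2
    rwa [e] at this
  · intro N i L _ ih W hW
    rw [← ih W (fun r => (Pot_congr fun f hf => Rel_c0 i L hf).symm.trans (hW r))]
    congr 1
    show (T.act L * T.k i) * T.c i = T.act L
    rw [mul_assoc, T.kc, mul_one]
  · intro N i L _ ih W hW
    rw [← ih W (fun r => (Pot_congr fun f hf => Rel_c1 i L hf).symm.trans (hW r))]
    congr 1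
    show (T.act L * T.k i) * T.c (i + 1) = T.act L
    rw [mul_assoc, T.kcr, mul_one]
  · intro N i L _ ih W hW
    rw [← ih W (fun r => (Pot_congr fun f hf => Rel_c2 i L hf).symm.trans (hW r))]
    congr 1
    show (T.act L * T.k (i + 1)) * T.c i = T.act L
    rw [mul_assoc, T.kcl, mul_one]
  · intro N i j L hij _ ih W hW
    rw [← ih W (fun r => (Pot_congr fun f hf => Rel_m1 hij L hf).symm.trans (hW r))]
    congr 1
    show (T.act L * T.k i) * T.c (j + 2) = (T.act L * T.c j) * T.k i
    rw [mul_assoc, T.far1 i j hij, mul_assoc]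
  · intro N i j L hij _ ih W hW
    rw [← ih W (fun r => (Pot_congr fun f hf => Rel_m2 hij L hf).symm.trans (hW r))]
    congr 1
    show (T.act L * T.k (j + 2)) * T.c i = (T.act L * T.c i) * T.k j
    rw [mul_assoc, T.far2 i j hij, mul_assoc]

end TrTower

end Ann32
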