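import Mathlib

/-!
# ANNULUS (A6), closed words (helper32)

Words in cups and caps.  Strands `0, ..., N-1`, faces `0, ..., N` (the strand `s` is between the faces `s` and `s+1`).
`cup i` inserts the strands `i, i+1` (joined by an arc) in the face `i`; `cap i` joins the strands `i, i+1`.
A closed word (on a cylinder) is reduced by cyclic rotation, `cup`-then-`cap` cancellation and commutation to the empty
word: `Cl.rec_on'`.
-/

namespace Ann32

/-- letters -/
inductive Lt
  | cup (i : ℕ)
  | cap (i : ℕ)
deriving DecidableEq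

open Lt

namespace Lt

/-- number of strands after the letter -/
def sz (N : ℕ) : Lt → ℕ
  | cup _ => N + 2
  | cap _ => N - 2

/-- the letter may be applied to `N` strands -/
def ok (N : ℕ) : Lt → Prop
  | cup i => i ≤ N
  | cap i => i + 2 ≤ N

/-- index of the letter -/
def idx : Lt → ℕ
  | cup i => i
  | cap i => i

/-- the letter is a cup -/
def isCup : Lt → Prop
  | cup _ => True
  | cap _ => False

end Lt

/-- number of strands after the word -/
def sz : ℕ → List Lt → ℕ
  | N, [] => N
  | N, a :: L => sz (a.sz N) L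

/-- the word may be applied to `N` strands -/
def ok : ℕ → List Lt → Prop
  | _, [] => True
  | N, a :: L => a.ok N ∧ ok (a.sz N) L

/-- sum of the indices -/
def wt (L : List Lt) : ℕ := (L.map Lt.idx).sum

/-- closed word -/
def Cl (N : ℕ) (L : List Lt) : Prop := ok N L ∧ sz N L = N

theorem sz_append (N : ℕ) (A B : List Lt) : sz N (A ++ B) = sz (sz N A) B := by
  induction A generalizing N with
  | nil => rfl
  | cons a A ih => exact ih _

theorem ok_append (N : ℕ) (A B : List Lt) : ok N (A ++ B) ↔ ok N A ∧ ok (sz N A) B := by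
  induction A generalizing N with
  | nil => exact ⟨fun h => ⟨trivial, h⟩, fun h => h.2⟩
  | cons a A ih =>
    show (a.ok N ∧ ok (a.sz N) (A ++ B)) ↔ ((a.ok N ∧ ok (a.sz N) A) ∧ ok (sz (a.sz N) A) B)
    rw [ih, and_assoc]

theorem Cl.rotate {N : ℕ} {A B : List Lt} (h : Cl N (A ++ B)) : Cl (sz N A) (B ++ A) := by
  obtain ⟨h1, h2⟩ := h
  rw [ok_append] at h1
  rw [sz_append] at h2
  refine ⟨(ok_append _ _ _).2 ⟨h1.2, ?_⟩, ?_⟩
  · rw [h2]
    exact h1.1
  · rw [sz_append, h2]

/-- size and number of cups and caps -/
theorem sz_count {N : ℕ} {L : List Lt} (h : ok N L) :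
    sz N L + 2 * (L.filter (fun a => match a with | cap _ => true | cup _ => false)).length =
      N + 2 * (L.filter (fun a => match a with | cap _ => false | cup _ => true)).length := by
  induction L generalizing N with
  | nil => rfl
  | cons a L ih =>
    obtain ⟨h1, h2⟩ := h
    have h3 := ih h2
    cases a with
    | cup i =>
      simp only [List.filter_cons, Lt.sz, sz] at h3 ⊢
      simp only [Bool.false_eq_true, if_false, if_true, List.length_cons]
      omega
    | cap i =>
      simp only [List.filter_cons, Lt.sz, sz, Lt.ok] at h1 h3 ⊢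
      simp only [Bool.false_eq_true, if_false, if_true, List.length_cons]
      omega

theorem exists_first {L : List Lt} {p : Lt → Prop} (h : ∃ x ∈ L, p x) :
    ∃ A x B, L = A ++ x :: B ∧ p x ∧ ∀ y ∈ A, ¬ p y := by
  classical
  induction L with
  | nil => simp at h
  | cons a L ih =>
    by_cases ha : p a
    · exact ⟨[], a, L, rfl, ha, by simp⟩
    · have h' : ∃ x ∈ L, p x := by
        obtain ⟨x, hx, hp⟩ := h
        rcases List.mem_cons.1 hx with rfl | hx
        · exact absurd hp ha
        · exact ⟨x, hx, hp⟩
      obtain ⟨A, x, B, h1, h2, h3⟩ := ih h'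
      refine ⟨a :: A, x, B, by rw [h1]; rfl, h2, ?_⟩
      intro y hy
      rcases List.mem_cons.1 hy with rfl | hy
      · exact ha
      · exact h3 y hy

theorem exists_cup_cap {N : ℕ} {L : List Lt} (h : Cl N L) (hL : L ≠ []) :
    (∃ x ∈ L, x.isCup) ∧ (∃ x ∈ L, ¬ x.isCup) := by
  have h1 := sz_count h.1
  rw [h.2] at h1
  have h2 : (L.filter (fun a => match a with | cap _ => true | cup _ => false)).length =
      (L.filter (fun a => match a with | cap _ => false | cup _ => true)).length := by omega
  obtain ⟨a, L, rfl⟩ := List.exists_cons_of_ne_nil hL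
  cases a with
  | cup i =>
    refine ⟨⟨cup i, by simp, trivial⟩, ?_⟩
    by_contra hcon
    push Not at hcon
    have h3 : (List.filter (fun a => match a with | cap _ => true | cup _ => false) (cup i :: L)) = [] := by
      rw [List.filter_eq_nil_iff]
      intro x hx
      have := hcon x hx
      cases x with
      | cup j => simp
      | cap j => exact absurd this (fun h => h)
    rw [h3] at h2
    simp at h2
  | cap i =>
    refine ⟨?_, ⟨cap i, by simp, fun h => h⟩⟩
    by_contra hcon
    push Not at hcon
    have h3 : (List.filter (fun a => match a with | cap _ => false | cup _ => true) (cap i :: L)) = [] := by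
      rw [List.filter_eq_nil_iff]
      intro x hx
      have := hcon x hx
      cases x with
      | cup j => exact absurd trivial this
      | cap j => simp
    rw [h3] at h2
    simp at h2

theorem isCup_iff (a : Lt) : a.isCup ↔ ∃ i, a = cup i := by
  cases a with
  | cup i => exact ⟨fun _ => ⟨i, rfl⟩, fun _ => trivial⟩
  | cap i => exact ⟨fun h => absurd h (fun h => h), fun ⟨j, h⟩ => by cases h⟩

theorem not_isCup_iff (a : Lt) : ¬ a.isCup ↔ ∃ i, a = cap i := by
  cases a with
  | cup i => exact ⟨fun h => absurd trivial h, fun ⟨j, h⟩ => by cases h⟩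
  | cap i => exact ⟨fun _ => ⟨i, rfl⟩, fun _ h => h⟩

/-- a rotation of a nonempty closed word begins with a cup and a cap -/
theorem exists_rot {N : ℕ} {L : List Lt} (h : Cl N L) (hL : L ≠ []) :
    ∃ A B i j C, L = A ++ B ∧ B ++ A = cup i :: cap j :: C := by
  obtain ⟨h1, h2⟩ := exists_cup_cap h hL
  obtain ⟨A, x, B, rfl, hx, hA⟩ := exists_first h1
  have h3 : ∃ y ∈ B ++ A, ¬ y.isCup := by
    obtain ⟨y, hy, hy'⟩ := h2
    refine ⟨y, ?_, hy'⟩
    simp only [List.mem_append, List.mem_cons] at hy ⊢
    rcases hy with hy | rfl | hy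
    · exact Or.inr hy
    · exact absurd hx hy'
    · exact Or.inl hy
  obtain ⟨C, y, D, hCD, hy, hC⟩ := exists_first h3
  obtain ⟨i, rfl⟩ := (isCup_iff x).1 hx
  obtain ⟨j, rfl⟩ := (not_isCup_iff y).1 hy
  rcases List.eq_nil_or_concat C with rfl | ⟨C', z, rfl⟩
  · exact ⟨A, cup i :: B, i, j, D, rfl, by rw [List.cons_append, hCD]; rfl⟩
  · have hz : z.isCup := by
      by_contra hz
      exact hC z (by simp) hz
    obtain ⟨k, rfl⟩ := (isCup_iff z).1 hz
    -- `cup i :: B ++ A = cup i :: C' ++ [cup k] ++ cap j :: D`
    have hA' : ∀ y ∈ A, ¬ y.isCup := hA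
    -- all letters of `C' ++ [cup k]` are cups, those of `A` are caps: so `C' ++ [cup k]` is a prefix of `B`
    have hpre : ∃ E, B = (C' ++ [cup k]) ++ E := by
      have h5 : (C' ++ [cup k]) ++ (cap j :: D) = B ++ A := by
        rw [hCD, List.concat_eq_append]
      rcases List.append_eq_append_iff.1 h5 with ⟨E, hE1, hE2⟩ | ⟨E, hE1, hE2⟩
      · exact ⟨E, hE1⟩
      · rcases E with _ | ⟨e, E⟩
        · exact ⟨[], by rw [hE1, List.append_nil, List.append_nil]⟩
        · exfalso
          have h6 : e ∈ A := by rw [hE2]; simp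
          have h7 : e ∈ C' ++ [cup k] := by rw [hE1]; simp
          have h8 : e.isCup := by
            by_contra h9
            exact hC e (by rw [List.concat_eq_append]; exact h7) h9
          exact hA' e h6 h8
    obtain ⟨E, rfl⟩ := hpre
    refine ⟨A ++ cup i :: C', cup k :: E, k, j, D ++ cup i :: C', ?_, ?_⟩
    · simp
    · have h5 : (C' ++ [cup k]) ++ (E ++ A) = (C' ++ [cup k]) ++ (cap j :: D) := by
        rw [← List.append_assoc, hCD, List.concat_eq_append]
      have h6 := List.append_cancel_left h5
      calc cup k :: E ++ (A ++ cup i :: C') = cup k :: (E ++ A) ++ cup i :: C' := by simp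
        _ = cup k :: (cap j :: D) ++ cup i :: C' := by rw [h6]
        _ = cup k :: cap j :: (D ++ cup i :: C') := by simp

theorem length_rot {A B : List Lt} : (B ++ A).length = (A ++ B).length := by
  simp [Nat.add_comm]

theorem wt_rot {A B : List Lt} : wt (B ++ A) = wt (A ++ B) := by
  simp [wt, Nat.add_comm]

/-- **Induction principle for closed words** -/
theorem Cl.induction {P : ℕ → List Lt → Prop} (nil : ∀ N, P N [])
    (rot : ∀ N a L, Cl N (a :: L) → P (a.sz N) (L ++ [a]) → P N (a :: L))
    (c0 : ∀ N i L, Cl N (cup i :: cap i :: L) → P N L → P N (cup i :: cap i :: L))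
    (c1 : ∀ N i L, Cl N (cup (i + 1) :: cap i :: L) → P N L → P N (cup (i + 1) :: cap i :: L))
    (c2 : ∀ N i L, Cl N (cup i :: cap (i + 1) :: L) → P N L → P N (cup i :: cap (i + 1) :: L))
    (m1 : ∀ N i j L, i ≤ j → Cl N (cup (j + 2) :: cap i :: L) → P N (cap i :: cup j :: L) →
      P N (cup (j + 2) :: cap i :: L))
    (m2 : ∀ N i j L, i ≤ j → Cl N (cup i :: cap (j + 2) :: L) → P N (cap j :: cup i :: L) →
      P N (cup i :: cap (j + 2) :: L))
    {N : ℕ} {L : List Lt} (h : Cl N L) : P N L := by
  -- rotation by a whole prefix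
  have rot' : ∀ (A : List Lt) (N : ℕ) (B : List Lt), Cl N (A ++ B) → P (sz N A) (B ++ A) → P N (A ++ B) := by
    intro A
    induction A with
    | nil =>
      intro N B _ hP
      rw [List.append_nil] at hP
      exact hP
    | cons a A ih =>
      intro N B hcl hP
      rw [List.cons_append] at hcl ⊢
      refine rot N a (A ++ B) hcl ?_
      have h1 : Cl (a.sz N) ((A ++ B) ++ [a]) := Cl.rotate (A := [a]) hcl
      rw [List.append_assoc] at h1 ⊢
      refine ih (a.sz N) (B ++ [a]) h1 ?_
      rw [List.append_assoc]
      exact hP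
  -- strong induction on the length and on the sum of the indices
  have key : ∀ n, ∀ w, ∀ N L, L.length = n → wt L = w → Cl N L → P N L := by
    intro n
    induction n using Nat.strong_induction_on with
    | _ n ihn =>
      intro w
      induction w using Nat.strong_induction_on with
      | _ w ihw =>
        intro N L hn hw hcl
        by_cases hL : L = []
        · subst hL
          exact nil N
        obtain ⟨A, B, i, j, C, rfl, hBA⟩ := exists_rot hcl hL
        apply rot' A N B hcl
        have hcl' := Cl.rotate hcl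
        have hn' : (cup i :: cap j :: C).length = n := by rw [← hBA, length_rot, hn]
        have hw' : wt (cup i :: cap j :: C) = w := by rw [← hBA, wt_rot, hw]
        rw [hBA] at hcl' ⊢
        set N' := sz N A
        have hwt : i + (j + wt C) = w := by rw [← hw']; rfl
        have hlen : C.length + 2 = n := by rw [← hn']; rfl
        obtain ⟨⟨ho1, ho2, ho3⟩, hs⟩ := hcl'
        have ho1' : i ≤ N' := ho1
        have ho2' : j + 2 ≤ N' + 2 := ho2
        rcases Nat.lt_trichotomy i j with hij | hij | hij
        · rcases Nat.eq_or_lt_of_le (Nat.succ_le_of_lt hij) with hij' | hij'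
          · -- `j = i + 1`
            obtain rfl : j = i + 1 := hij'.symm
            exact c2 N' i C ⟨⟨ho1, ho2, ho3⟩, hs⟩ (ihn C.length (by omega) (wt C) N' C rfl rfl ⟨ho3, hs⟩)
          · obtain ⟨k, rfl⟩ : ∃ k, j = k + 2 := ⟨j - 2, by omega⟩
            refine m2 N' i k C (by omega) ⟨⟨ho1, ho2, ho3⟩, hs⟩ ?_
            refine ihw (wt (cap k :: cup i :: C)) ?_ N' _ (by rw [← hlen]; rfl) rfl ?_
            · show k + (i + wt C) < w
              omega
            · have e : N' - 2 + 2 = N' + 2 - 2 := by omega
              have e1 : k + 2 ≤ N' := by omega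
              have e2 : i ≤ N' - 2 := by omega
              refine ⟨⟨e1, e2, ?_⟩, ?_⟩
              · show ok (N' - 2 + 2) C
                rw [e]; exact ho3
              · show sz (N' - 2 + 2) C = N'
                rw [e]; exact hs
        · subst hij
          exact c0 N' i C ⟨⟨ho1, ho2, ho3⟩, hs⟩ (ihn C.length (by omega) (wt C) N' C rfl rfl ⟨ho3, hs⟩)
        · rcases Nat.eq_or_lt_of_le (Nat.succ_le_of_lt hij) with hij' | hij'
          · obtain rfl : i = j + 1 := hij'.symm
            exact c1 N' j C ⟨⟨ho1, ho2, ho3⟩, hs⟩ (ihn C.length (by omega) (wt C) N' C rfl rfl ⟨ho3, hs⟩)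
          · obtain ⟨k, rfl⟩ : ∃ k, i = k + 2 := ⟨i - 2, by omega⟩
            refine m1 N' j k C (by omega) ⟨⟨ho1, ho2, ho3⟩, hs⟩ ?_
            refine ihw (wt (cap j :: cup k :: C)) ?_ N' _ (by rw [← hlen]; rfl) rfl ?_
            · show j + (k + wt C) < w
              omega
            · have e : N' - 2 + 2 = N' + 2 - 2 := by omega
              have e1 : j + 2 ≤ N' := by omega
              have e2 : k ≤ N' - 2 := by omega
              refine ⟨⟨e1, e2, ?_⟩, ?_⟩
              · show ok (N' - 2 + 2) C
                rw [e]; exact ho3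
              · show sz (N' - 2 + 2) C = N'
                rw [e]; exact hs
  exact key L.length (wt L) N L rfl rfl h

end Ann32
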